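import Pool.Agent.H896Z.FS.Step

namespace Pool.Agent.H896Z.FS

open PowerSeries Filter

noncomputable section

variable {ι : Type}

lemma Inv.mono {Z Z' : Set (Vars ι)} {A : Subring (TI ι)} (h : Inv Z A) (hZ : Z ⊆ Z') :
    Inv Z' A := ⟨h.pre, h.pure, h.cnt, h.stab, h.sub.trans (TF_mono (kZ_mono hZ)), h.lam⟩

lemma inv_iSup {J : Type} [Nonempty J] [Countable J] {Z : Set (Vars ι)} {S : J → Subring (TI ι)}
    (hd : Directed (· ≤ ·) S) (h : ∀ i, Inv Z (S i)) : Inv Z (⨆ i, S i) where
  pre := preGood_iSup hd fun i => (h i).pre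
  pure := pure_iSup hd fun i => (h i).pure
  cnt := by
    rw [Subring.coe_iSup_of_directed hd]
    exact Set.countable_iUnion fun i => (h i).cnt
  stab := fun a ha => by
    obtain ⟨i, hi⟩ := (Subring.mem_iSup_of_directed hd).1 ha
    exact le_iSup S i ((h i).stab a hi)
  sub := iSup_le fun i => (h i).sub
  lam := fun n => le_iSup S (Classical.arbitrary J) ((h _).lam n)

/-- the two variables -/
def zz : Bool → TI ι := fun b => if b then xx else yy

/-- constants -/
def K0 (ι : Type) : Subring (TI ι) := (kZ (Lam ι)).toSubring.map cc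

/-- the polynomial ring of the first stage -/
def S0 (ι : Type) : Subring (TI ι) := Subring.closure ((K0 ι : Set (TI ι)) ∪ Set.range zz)

/-- the first stage -/
def A0 (ι : Type) : Subring (TI ι) := loc (S0 ι)

lemma inv_A0 : Inv (Lam ι) (A0 ι) := by
  have hx : xx ∈ S0 ι := Subring.subset_closure (Or.inr ⟨true, rfl⟩)
  have hy : yy ∈ S0 ι := Subring.subset_closure (Or.inr ⟨false, rfl⟩)
  have hc : ∀ γ ∈ kZ (Lam ι), cc γ ∈ S0 ι := fun γ hγ =>
    Subring.subset_closure (Or.inl ⟨γ, hγ, rfl⟩)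
  have hpre : PreGood (A0 ι) := by
    refine loc_preGood hx hy fun a ha h0 => ?_
    have h1 : ∃ γ ∈ kZ (Lam ι), ∃ p ∈ S0 ι, ∃ q ∈ S0 ι, a = cc γ + xx * p + yy * q := by
      clear h0
      induction ha using Subring.closure_induction with
      | mem a ha =>
        rcases ha with ⟨γ, hγ, rfl⟩ | ⟨_ | _, rfl⟩
        · exact ⟨γ, hγ, 0, zero_mem _, 0, zero_mem _, by simp⟩
        · exact ⟨0, zero_mem _, 0, zero_mem _, 1, one_mem _, by simp [zz]⟩
        · exact ⟨0, zero_mem _, 1, one_mem _, 0, zero_mem _, by simp [zz]⟩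
      | zero => exact ⟨0, zero_mem _, 0, zero_mem _, 0, zero_mem _, by simp⟩
      | one => exact ⟨1, one_mem _, 0, zero_mem _, 0, zero_mem _, by simp⟩
      | add a b _ _ ha hb =>
        obtain ⟨γ, hγ, p, hp, q, hq, rfl⟩ := ha
        obtain ⟨γ', hγ', p', hp', q', hq', rfl⟩ := hb
        exact ⟨γ + γ', add_mem hγ hγ', p + p', add_mem hp hp', q + q', add_mem hq hq', by
          rw [map_add]; ring⟩
      | neg a _ ha =>
        obtain ⟨γ, hγ, p, hp, q, hq, rfl⟩ := ha
        exact ⟨-γ, neg_mem hγ, -p, neg_mem hp, -q, neg_mem hq, by rw [map_neg]; ring⟩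
      | mul a b _ hb' ha hb =>
        obtain ⟨γ, hγ, p, hp, q, hq, rfl⟩ := ha
        obtain ⟨γ', hγ', p', hp', q', hq', e⟩ := hb
        refine ⟨γ * γ', mul_mem hγ hγ', p * b + cc γ * p', add_mem (mul_mem hp hb')
          (mul_mem (hc _ hγ) hp'), q * b + cc γ * q', add_mem (mul_mem hq hb')
          (mul_mem (hc _ hγ) hq'), ?_⟩
        rw [map_mul]
        linear_combination (cc γ) * e
    obtain ⟨γ, -, p, hp, q, hq, rfl⟩ := h1
    have : γ = 0 := by simpa using h0
    exact ⟨p, hp, q, hq, by simp [this]⟩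
  have hN : IsNoetherianRing (S0 ι) := by
    let f : MvPolynomial Bool (kZ (Lam ι)) →+* TI ι :=
      MvPolynomial.eval₂Hom (cc.comp (kZ (Lam ι)).subtype) zz
    have h1 : S0 ι = f.range := by
      refine le_antisymm (Subring.closure_le.2 ?_) ?_
      · rintro _ (⟨γ, hγ, rfl⟩ | ⟨b, rfl⟩)
        · exact ⟨MvPolynomial.C ⟨γ, hγ⟩, by simp [f]⟩
        · exact ⟨MvPolynomial.X b, by simp [f]⟩
      · rintro _ ⟨P, rfl⟩
        induction P using MvPolynomial.induction_on with
        | C a => simpa [f] using hc _ a.2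
        | add p q hp hq => rw [map_add]; exact add_mem hp hq
        | mul_X p i hp =>
          rw [map_mul]
          have hz : zz i ∈ S0 ι := Subring.subset_closure (Or.inr ⟨i, rfl⟩)
          exact mul_mem hp (by simpa [f] using hz)
    rw [h1]
    exact isNoetherianRing_of_surjective _ _ f.rangeRestrict f.rangeRestrict_surjective
  have hN2 : IsNoetherianRing (A0 ι) := loc_noeth _
  refine ⟨hpre, hpre.pure, ?_, ?_, ?_, fun n => le_loc _ (hc _ (vr_mem ⟨n, rfl⟩))⟩
  · exact loc_countable (closure_countable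
      (((countable_kZ (Set.countable_range _)).image _).union (Set.countable_range _)))
  · have h2 : ∀ u ∈ S0 ι, gg u ∈ S0 ι := by
      intro u hu
      have h3 := mem_sqfree_closure (K0 ι) zz hu
      clear hu
      induction h3 using AddSubgroup.closure_induction with
      | zero => simp
      | add a b _ _ ha hb => rw [map_add]; exact add_mem ha hb
      | neg a _ ha => rw [map_neg]; exact neg_mem ha
      | mem u hu =>
        obtain ⟨ρ, hρ, _, ⟨γ, hγ, rfl⟩, F, rfl⟩ := hu
        rw [gg_sq_mul]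
        refine mul_mem hρ ?_
        have e : ∏ i ∈ F, (zz i : TI ι) =
            (if true ∈ F then xx else 1) * (if false ∈ F then yy else 1) := by
          rw [← Finset.univ_inter F, ← Finset.prod_ite_mem, Fintype.prod_bool]
          simp [zz]
        rw [e, gg_apply]
        split_ifs
        · rw [show xx * yy * (cc γ * (xx * yy)) = (xx * yy) ^ 2 * cc γ by ring,
            Phi_sq_mul (phi_sq_mul _), Phi_cc, ← mul_assoc (cc γ), Phi_cc_xy]
          simpa using mul_mem (add_mem hx hy) (hc _ (phi_mem _ _ hγ))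
        · rw [show xx * yy * (cc γ * (xx * 1)) = xx ^ 2 * (cc γ * yy) by ring,
            Phi_sq_mul (phi_sq_mul _), Phi_cc_y, mul_one, Phi_cc_x]
          simp
        · rw [show xx * yy * (cc γ * (1 * yy)) = yy ^ 2 * (cc γ * xx) by ring,
            Phi_sq_mul (phi_sq_mul _), Phi_cc_x, one_mul, Phi_cc_y]
          simp
        · rw [show xx * yy * (cc γ * (1 * 1)) = cc γ * xx * yy by ring, Phi_cc_xy, mul_one,
            mul_one, Phi_cc]
          simpa using hc _ (phi_mem _ _ hγ)
    rintro t ⟨q, hq, hu, htq⟩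
    refine ⟨q, hq, hu, ?_⟩
    rw [mul_comm, ← gg_sq_mul, show q ^ 2 * t = t * q * q by ring]
    exact h2 _ (mul_mem htq hq)
  · refine loc_le (Subring.closure_le.2 ?_) (TF_inv _)
    rintro _ (⟨γ, hγ, rfl⟩ | ⟨_ | _, rfl⟩)
    · exact cc_mem_TF hγ
    · exact yy_mem_TF _
    · exact xx_mem_TF _

variable [LinearOrder ι] [WellFoundedLT ι]

/-- variables used before stage `α` -/
def Zs (α : ι) : Set (Vars ι) := Lam ι ∪ Sum.inr '' {p | p.1 < α}

open Classical in
/-- one step -/
def st (α : ι) (A : Subring (TI ι)) : Subring (TI ι) :=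
  if h : ∃ A', StepProps (Zs α) α A A' then h.choose else A

/-- the chain -/
def FF : ι → Subring (TI ι) :=
  (wellFounded_lt (α := ι)).fix fun α rec => st α (A0 ι ⊔ ⨆ β : Set.Iio α, rec β β.2)

/-- union of the earlier stages -/
def below (α : ι) : Subring (TI ι) := A0 ι ⊔ ⨆ β : Set.Iio α, FF β

lemma FF_eq (α : ι) : FF α = st α (below α) := by
  rw [FF, WellFounded.fix_eq]; rfl

lemma FF_le_below {α β : ι} (h : β < α) : FF β ≤ below α :=
  le_sup_of_le_right (le_iSup (fun β : Set.Iio α => FF β.1) ⟨β, h⟩)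

lemma stage (hc : ∀ a : ι, (Set.Iio a).Countable) (α : ι) :
    StepProps (Zs α) α (below α) (FF α) ∧ ∀ t ∈ below α, t ∈ A0 ι ∨ ∃ β < α, t ∈ FF β := by
  induction α using WellFoundedLT.induction with
  | ind α ih =>
    have : Countable (Set.Iio α) := (hc α).to_subtype
    let G : Option (Set.Iio α) → Subring (TI ι) := fun o => o.elim (A0 ι) fun β => FF β.1
    have hG : below α = ⨆ o, G o := by rw [iSup_option]; rfl
    have h0 : ∀ β : Set.Iio α, A0 ι ≤ FF β.1 := fun β => le_sup_left.trans (ih β β.2).1.le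
    have hd : Directed (· ≤ ·) G := by
      rintro (_ | β) (_ | γ)
      · exact ⟨none, le_rfl, le_rfl⟩
      · exact ⟨some γ, h0 γ, le_rfl⟩
      · exact ⟨some β, le_rfl, h0 β⟩
      · rcases lt_trichotomy β.1 γ.1 with h | h | h
        · exact ⟨some γ, (FF_le_below h).trans (ih γ γ.2).1.le, le_rfl⟩
        · exact ⟨some γ, le_of_eq (congrArg FF h), le_rfl⟩
        · exact ⟨some β, le_rfl, (FF_le_below h).trans (ih β β.2).1.le⟩
    have hinv : Inv (Zs α) (below α) := by
      rw [hG]
      refine inv_iSup hd ?_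
      rintro (_ | β)
      · exact inv_A0.mono Set.subset_union_left
      · refine (ih β β.2).1.inv.mono ?_
        rintro _ ((h | ⟨p, hp, rfl⟩) | ⟨j, rfl⟩)
        · exact Or.inl h
        · exact Or.inr ⟨p, lt_trans hp β.2, rfl⟩
        · exact Or.inr ⟨_, β.2, rfl⟩
    have hex : ∃ A', StepProps (Zs α) α (below α) A' := exists_step hinv α (by
      rintro j (⟨n, h⟩ | ⟨p, hp, h⟩)
      · simp at h
      · have : p = (α, j) := by simpa using h
        subst this
        exact lt_irrefl α hp)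
    refine ⟨?_, fun t ht => ?_⟩
    · rw [FF_eq, st, dif_pos hex]
      exact hex.choose_spec
    · rw [hG, Subring.mem_iSup_of_directed hd] at ht
      obtain ⟨_ | β, h⟩ := ht
      · exact Or.inl h
      · exact Or.inr ⟨β, β.2, h⟩

/-- the final ring -/
def RR (ι : Type) [LinearOrder ι] [WellFoundedLT ι] : Subring (TI ι) := ⨆ α : ι, FF α

section final

variable (hc : ∀ a : ι, (Set.Iio a).Countable) [Uncountable ι]
include hc

omit [Uncountable ι] in
lemma FF_mono : Monotone (FF : ι → Subring (TI ι)) := by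
  intro a b h
  rcases h.lt_or_eq with h | rfl
  · exact (FF_le_below h).trans (stage hc b).1.le
  · exact le_rfl

lemma mem_RR {t : TI ι} : t ∈ RR ι ↔ ∃ α, t ∈ FF α :=
  Subring.mem_iSup_of_directed (FF_mono hc).directed_le

lemma RR_pre : PreGood (RR ι) :=
  preGood_iSup (FF_mono hc).directed_le fun α => (stage hc α).1.inv.pre

lemma RR_pure : Pure (RR ι) :=
  pure_iSup (FF_mono hc).directed_le fun α => (stage hc α).1.inv.pure

lemma RR_stab {t : TI ι} (h : t ∈ RR ι) : gg t ∈ RR ι := by
  obtain ⟨α, hα⟩ := (mem_RR hc).1 h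
  exact (mem_RR hc).2 ⟨α, (stage hc α).1.inv.stab t hα⟩

lemma cc_mem_RR (γ : KK (Vars ι)) : cc γ ∈ RR ι := by
  have h1 : ∀ a : PP (Vars ι), cc (algebraMap _ (KK (Vars ι)) a) ∈ RR ι := by
    intro a
    induction a using MvPolynomial.induction_on with
    | C a =>
      have : ∀ a : ZMod 2, a = 0 ∨ a = 1 := by decide
      rcases this a with rfl | rfl <;> simp
    | add p q hp hq => rw [map_add, map_add]; exact add_mem hp hq
    | mul_X p i hp =>
      rw [map_mul, map_mul]
      refine mul_mem hp ?_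
      rcases i with n | ⟨α, j⟩
      · exact (mem_RR hc).2 ⟨Classical.arbitrary ι, (stage hc _).1.inv.lam n⟩
      · exact (mem_RR hc).2 ⟨α, (stage hc α).1.hw j⟩
  obtain ⟨a, b, hb, rfl⟩ := exists_div γ
  have hb' : algebraMap _ (KK (Vars ι)) b ≠ 0 :=
    (map_ne_zero_iff _ (IsFractionRing.injective _ _)).2 hb
  refine (RR_pre hc).inv _ _ (h1 b) (isUnit_iff_res.2 (by simpa using hb)) ?_
  rw [← map_mul, div_mul_cancel₀ _ hb']
  exact h1 a

lemma cl_RR (α : ι) : Cl (FF α) (RR ι) := by
  intro ρ hρ H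
  obtain ⟨β, hβ⟩ := (mem_RR hc).1 hρ
  induction β using WellFoundedLT.induction with
  | ind β ih =>
    rcases le_or_gt β α with h | h
    · exact FF_mono hc h hβ
    · have h1 := (stage hc β).1.cl ρ hβ fun i => (H i).imp fun _ ha => ⟨FF_le_below h ha.1, ha.2⟩
      rcases (stage hc β).2 ρ h1 with h2 | ⟨γ, hγ, h2⟩
      · exact (stage hc α).1.le ((le_sup_left : A0 ι ≤ below α) h2)
      · exact ih γ hγ h2

omit [WellFoundedLT ι] in
lemma exists_bound {s : Set ι} (hs : s.Countable) : ∃ b, ∀ a ∈ s, a < b := by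
  by_contra hcon
  push Not at hcon
  refine Set.not_countable_univ (α := ι) ((hs.biUnion fun a _ => (hc a).insert a).mono ?_)
  intro b _
  obtain ⟨a, ha, h⟩ := hcon b
  exact Set.mem_biUnion ha (h.eq_or_lt)

end final

end

end Pool.Agent.H896Z.FS
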