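import Mathlib

namespace Pool.Agent.H896Z.FS

open MvPolynomial

noncomputable section

variable {σ : Type}

/-- polynomial ring -/
abbrev PP (σ : Type) := MvPolynomial σ (ZMod 2)

/-- the big field -/
abbrev KK (σ : Type) := FractionRing (PP σ)

open Classical in
/-- the basic `2⁻¹`-linear maps on polynomials -/
def phiP (Θ : Set σ) : PP σ →ₗ[ZMod 2] PP σ :=
  (basisMonomials σ (ZMod 2)).constr (ZMod 2) fun α =>
    if ∀ i, i ∉ Θ → Even (α i) then monomial (α.mapRange (· / 2) (by simp)) 1 else 0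

open Classical in
lemma phiP_monomial (Θ : Set σ) (α : σ →₀ ℕ) (c : ZMod 2) :
    phiP Θ (monomial α c) =
      if ∀ i, i ∉ Θ → Even (α i) then monomial (α.mapRange (· / 2) (by simp)) c else 0 := by
  have h1 : (monomial α c : PP σ) = c • basisMonomials σ (ZMod 2) α := by
    simp [smul_monomial]
  rw [h1, map_smul, phiP, Module.Basis.constr_basis]
  split_ifs <;> simp [smul_monomial]

lemma phiP_X_sq_mul (Θ : Set σ) (i : σ) (h : PP σ) :
    phiP Θ (X i ^ 2 * h) = X i * phiP Θ h := by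
  classical
  induction h using MvPolynomial.induction_on' with
  | add p q hp hq => rw [mul_add, map_add, map_add, hp, hq, mul_add]
  | monomial α c =>
    rw [X_pow_eq_monomial, monomial_mul, phiP_monomial, phiP_monomial, one_mul]
    have e : (∀ j, j ∉ Θ → Even ((Finsupp.single i 2 + α : σ →₀ ℕ) j)) ↔ ∀ j, j ∉ Θ → Even (α j) := by
      refine forall_congr' fun j => forall_congr' fun _ => ?_
      simp only [Finsupp.coe_add, Pi.add_apply, Finsupp.single_apply]
      split_ifs <;> simp [Nat.even_add]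
    simp only [e]
    split_ifs
    · rw [X, monomial_mul, one_mul]
      congr 2
      ext j
      simp only [Finsupp.mapRange_apply, Finsupp.coe_add, Pi.add_apply, Finsupp.single_apply]
      split_ifs <;> omega
    · simp

lemma phiP_sq_mul (Θ : Set σ) (f h : PP σ) : phiP Θ (f ^ 2 * h) = f * phiP Θ h := by
  induction f using MvPolynomial.induction_on generalizing h with
  | C a =>
    have : a ^ 2 = a := by fin_cases a <;> rfl
    rw [← map_pow, this, C_mul', C_mul', map_smul]
  | add p q hp hq => rw [add_pow_char, add_mul, map_add, hp, hq, add_mul]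
  | mul_X p i hp => rw [mul_pow, mul_assoc, hp, phiP_X_sq_mul, mul_assoc]

lemma phiP_one (Θ : Set σ) : phiP Θ 1 = 1 := by
  have : (1 : PP σ) = monomial 0 1 := rfl
  rw [this, phiP_monomial]
  simp

open Classical in
lemma phiP_mul_X (Θ : Set σ) (i : σ) (h : PP σ) (hh : h ∈ supported (ZMod 2) ({i}ᶜ : Set σ)) :
    phiP Θ (h * X i) = if i ∈ Θ then phiP Θ h else 0 := by
  have hi : ∀ α ∈ h.support, α i = 0 := by
    intro α hα
    by_contra hne
    have : i ∈ h.vars := (mem_vars_iff_mem_support i).2 ⟨α, hα, Finsupp.mem_support_iff.2 hne⟩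
    exact (mem_supported.1 hh) this rfl
  have key : ∀ α ∈ h.support, phiP Θ (monomial α (coeff α h) * X i) =
      if i ∈ Θ then phiP Θ (monomial α (coeff α h)) else 0 := by
    intro α hα
    have h0 := hi α hα
    rw [X, monomial_mul, mul_one, phiP_monomial, phiP_monomial]
    by_cases hΘ : i ∈ Θ
    · have e : (∀ j, j ∉ Θ → Even ((α + Finsupp.single i 1 : σ →₀ ℕ) j)) ↔ ∀ j, j ∉ Θ → Even (α j) := by
        refine forall_congr' fun j => forall_congr' fun hj => ?_
        have : i ≠ j := by rintro rfl; exact hj hΘ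
        simp [this]
      simp only [e, hΘ, if_true]
      split_ifs
      · congr 2
        ext j
        simp only [Finsupp.mapRange_apply, Finsupp.coe_add, Pi.add_apply, Finsupp.single_apply]
        split_ifs with hij
        · subst hij; omega
        · simp
      · rfl
    · simp only [hΘ, if_false]
      rw [if_neg]
      intro hall
      have := hall i hΘ
      simp [h0] at this
  conv_lhs => rw [h.as_sum, Finset.sum_mul, map_sum, Finset.sum_congr rfl key]
  split_ifs
  · conv_rhs => rw [h.as_sum, map_sum]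
  · simp

lemma phiP_supported (Θ Z : Set σ) (h : PP σ) (hh : h ∈ supported (ZMod 2) Z) :
    phiP Θ h ∈ supported (ZMod 2) Z := by
  classical
  rw [h.as_sum, map_sum]
  refine Subalgebra.sum_mem _ fun α hα => ?_
  rw [phiP_monomial]
  split_ifs
  · rw [mem_supported, vars_monomial (mem_support_iff.1 hα)]
    intro j hj
    refine mem_supported.1 hh ((mem_vars_iff_mem_support j).2 ⟨α, hα, ?_⟩)
    exact Finsupp.support_mapRange hj
  · exact Subalgebra.zero_mem _

instance : CharP (KK σ) 2 := charP_of_injective_algebraMap (IsFractionRing.injective (PP σ) _) 2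

/-- the underlying function on the fraction field -/
def phiFun (Θ : Set σ) (z : KK σ) : KK σ :=
  algebraMap (PP σ) (KK σ) (phiP Θ ((IsLocalization.sec (nonZeroDivisors (PP σ)) z).1 *
    (IsLocalization.sec (nonZeroDivisors (PP σ)) z).2)) /
    algebraMap (PP σ) (KK σ) (IsLocalization.sec (nonZeroDivisors (PP σ)) z).2

lemma phiFun_div (Θ : Set σ) (a b : PP σ) (hb : b ≠ 0) :
    phiFun Θ (algebraMap (PP σ) (KK σ) a / algebraMap (PP σ) (KK σ) b) =
      algebraMap (PP σ) (KK σ) (phiP Θ (a * b)) / algebraMap (PP σ) (KK σ) b := by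
  set z := algebraMap (PP σ) (KK σ) a / algebraMap (PP σ) (KK σ) b with hz
  have hinj := IsFractionRing.injective (PP σ) (KK σ)
  have h1 := IsLocalization.sec_spec (nonZeroDivisors (PP σ)) z
  unfold phiFun
  set a' := (IsLocalization.sec (nonZeroDivisors (PP σ)) z).1
  set b' := (IsLocalization.sec (nonZeroDivisors (PP σ)) z).2
  have hb' : (b' : PP σ) ≠ 0 := nonZeroDivisors.coe_ne_zero b'
  have hbK : algebraMap (PP σ) (KK σ) b ≠ 0 := (map_ne_zero_iff _ hinj).2 hb
  have hbK' : algebraMap (PP σ) (KK σ) b' ≠ 0 := (map_ne_zero_iff _ hinj).2 hb'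
  have h2 : a * b' = a' * b := by
    apply hinj
    rw [map_mul, map_mul, ← h1, hz]
    field_simp
  rw [div_eq_div_iff hbK' hbK, ← map_mul, ← map_mul]
  congr 1
  rw [mul_comm (phiP Θ _) b, mul_comm (phiP Θ _) (b' : PP σ), ← phiP_sq_mul, ← phiP_sq_mul]
  congr 1
  linear_combination (-(b * b')) * h2

lemma exists_div (z : KK σ) : ∃ a b : PP σ, b ≠ 0 ∧
    z = algebraMap (PP σ) (KK σ) a / algebraMap (PP σ) (KK σ) b := by
  obtain ⟨a, b, hb, h⟩ := IsFractionRing.div_surjective (A := PP σ) z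
  exact ⟨a, b, nonZeroDivisors.ne_zero hb, h.symm⟩

/-- the basic `2⁻¹`-linear maps on the field -/
def phi (Θ : Set σ) : KK σ →+ KK σ where
  toFun := phiFun Θ
  map_zero' := by
    have := phiFun_div Θ 0 1 one_ne_zero
    simpa using this
  map_add' z w := by
    obtain ⟨a, b, hb, rfl⟩ := exists_div z
    obtain ⟨c, d, hd, rfl⟩ := exists_div w
    have hinj := IsFractionRing.injective (PP σ) (KK σ)
    have hbK : algebraMap (PP σ) (KK σ) b ≠ 0 := (map_ne_zero_iff _ hinj).2 hb
    have hdK : algebraMap (PP σ) (KK σ) d ≠ 0 := (map_ne_zero_iff _ hinj).2 hd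
    rw [div_add_div _ _ hbK hdK, ← map_mul, ← map_mul, ← map_mul, ← map_add,
      phiFun_div _ _ _ (mul_ne_zero hb hd), phiFun_div _ _ _ hb, phiFun_div _ _ _ hd,
      div_add_div _ _ hbK hdK, ← map_mul, ← map_mul, ← map_mul, ← map_add]
    congr 2
    rw [mul_comm (phiP Θ _) d, ← phiP_sq_mul, ← phiP_sq_mul, ← map_add]
    congr 1
    ring

lemma phi_div (Θ : Set σ) (a b : PP σ) (hb : b ≠ 0) :
    phi Θ (algebraMap (PP σ) (KK σ) a / algebraMap (PP σ) (KK σ) b) =
      algebraMap (PP σ) (KK σ) (phiP Θ (a * b)) / algebraMap (PP σ) (KK σ) b :=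
  phiFun_div Θ a b hb

lemma phi_sq_mul (Θ : Set σ) (z w : KK σ) : phi Θ (z ^ 2 * w) = z * phi Θ w := by
  obtain ⟨a, b, hb, rfl⟩ := exists_div z
  obtain ⟨c, d, hd, rfl⟩ := exists_div w
  have hinj := IsFractionRing.injective (PP σ) (KK σ)
  have hbK : algebraMap (PP σ) (KK σ) b ≠ 0 := (map_ne_zero_iff _ hinj).2 hb
  have hdK : algebraMap (PP σ) (KK σ) d ≠ 0 := (map_ne_zero_iff _ hinj).2 hd
  rw [div_pow, div_mul_div_comm, ← map_pow, ← map_pow, ← map_mul, ← map_mul,
    phi_div _ _ _ (mul_ne_zero (pow_ne_zero 2 hb) hd), phi_div _ _ _ hd]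
  have : a ^ 2 * c * (b ^ 2 * d) = (a * b) ^ 2 * (c * d) := by ring
  rw [this, phiP_sq_mul]
  simp only [map_mul, map_pow]
  field_simp

lemma phi_one (Θ : Set σ) : phi Θ 1 = 1 := by
  have := phi_div Θ 1 1 one_ne_zero
  simpa [phiP_one] using this

/-- the variables in the field -/
def vr (i : σ) : KK σ := algebraMap (PP σ) (KK σ) (X i)

lemma vr_ne_zero (i : σ) : vr i ≠ 0 :=
  (map_ne_zero_iff _ (IsFractionRing.injective (PP σ) (KK σ))).2 (X_ne_zero i)

/-- subfield generated by a set of variables -/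
def kZ (Z : Set σ) : Subfield (KK σ) := (IntermediateField.adjoin (ZMod 2) (vr '' Z)).toSubfield

lemma mem_kZ {Z : Set σ} {z : KK σ} : z ∈ kZ Z ↔ ∃ a ∈ supported (ZMod 2) Z,
    ∃ b ∈ supported (ZMod 2) Z, b ≠ 0 ∧
      z = algebraMap (PP σ) (KK σ) a / algebraMap (PP σ) (KK σ) b := by
  have e : Algebra.adjoin (ZMod 2) (vr '' Z) =
      (supported (ZMod 2) Z).map (IsScalarTower.toAlgHom (ZMod 2) (PP σ) (KK σ)) := by
    rw [supported_eq_adjoin_X, AlgHom.map_adjoin, Set.image_image]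
    rfl
  change z ∈ IntermediateField.adjoin (ZMod 2) (vr '' Z) ↔ _
  rw [IntermediateField.mem_adjoin_iff_div, e]
  constructor
  · rintro ⟨_, ⟨a, ha, rfl⟩, _, ⟨b, hb, rfl⟩, rfl⟩
    by_cases h : b = 0
    · exact ⟨0, zero_mem _, 1, one_mem _, one_ne_zero, by simp [h]⟩
    · exact ⟨a, ha, b, hb, h, rfl⟩
  · rintro ⟨a, ha, b, hb, -, rfl⟩
    exact ⟨_, ⟨a, ha, rfl⟩, _, ⟨b, hb, rfl⟩, rfl⟩

lemma kZ_mono {Z Z' : Set σ} (h : Z ⊆ Z') : kZ Z ≤ kZ Z' :=
  fun _ hz => IntermediateField.adjoin.mono _ _ _ (Set.image_mono h) hz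

lemma vr_mem {Z : Set σ} {i : σ} (h : i ∈ Z) : vr i ∈ kZ Z :=
  IntermediateField.subset_adjoin _ _ ⟨i, h, rfl⟩

open Classical in
lemma phi_mul_vr (Θ : Set σ) (i : σ) {z : KK σ} (hz : z ∈ kZ ({i}ᶜ : Set σ)) :
    phi Θ (z * vr i) = if i ∈ Θ then phi Θ z else 0 := by
  obtain ⟨a, ha, b, hb, hb0, rfl⟩ := mem_kZ.1 hz
  rw [div_mul_eq_mul_div, vr, ← map_mul, phi_div _ _ _ hb0, phi_div _ _ _ hb0, mul_right_comm,
    phiP_mul_X _ _ _ (mul_mem ha hb)]
  split_ifs <;> simp

lemma phi_mem (Θ Z : Set σ) {z : KK σ} (hz : z ∈ kZ Z) : phi Θ z ∈ kZ Z := by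
  obtain ⟨a, ha, b, hb, hb0, rfl⟩ := mem_kZ.1 hz
  rw [phi_div _ _ _ hb0]
  exact mem_kZ.2 ⟨_, phiP_supported _ _ _ (mul_mem ha hb), b, hb, hb0, rfl⟩

lemma exists_finset_kZ (z : KK σ) : ∃ s : Finset σ, z ∈ kZ (s : Set σ) := by
  classical
  obtain ⟨a, b, hb, rfl⟩ := exists_div z
  refine ⟨a.vars ∪ b.vars, mem_kZ.2 ⟨a, ?_, b, ?_, hb, rfl⟩⟩
  · rw [mem_supported]; simp
  · rw [mem_supported]; simp

lemma transcendental_vr {Z : Set σ} {i : σ} (h : i ∉ Z) : Transcendental (kZ Z) (vr i) := by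
  have h1 : AlgebraicIndependent (ZMod 2) (vr : σ → KK σ) :=
    (algebraicIndependent_X σ (ZMod 2)).map' (f := IsScalarTower.toAlgHom (ZMod 2) (PP σ) (KK σ))
      (IsFractionRing.injective (PP σ) (KK σ))
  have h2 := h1.transcendental_adjoin h
  exact (IntermediateField.transcendental_adjoin_iff (F := ZMod 2)).2 h2

lemma countable_kZ {Z : Set σ} (h : Z.Countable) : (kZ Z : Set (KK σ)).Countable := by
  have h1 := IntermediateField.cardinalMk_adjoin_le (ZMod 2) (vr '' Z)
  rw [← Cardinal.le_aleph0_iff_set_countable]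
  refine h1.trans (sup_le (sup_le ?_ ?_) le_rfl)
  · exact Cardinal.mk_le_aleph0
  · exact Cardinal.le_aleph0_iff_set_countable.2 (h.image _)

/-- the subfield generated by the squares and the variables other than `i` -/
def kS (i : σ) : Subfield (KK σ) :=
  Subfield.closure (Set.range (fun z : KK σ => z ^ 2) ∪ kZ ({i}ᶜ : Set σ))

lemma sq_mem_kS (i : σ) (z : KK σ) : z ^ 2 ∈ kS i := Subfield.subset_closure (Or.inl ⟨z, rfl⟩)

lemma kZ_le_kS {Z : Set σ} {i : σ} (h : i ∉ Z) : kZ Z ≤ kS i := fun _ hz =>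
  Subfield.subset_closure (Or.inr (kZ_mono (Set.subset_compl_singleton_iff.2 h) hz))

lemma vr_notMem_kS (i : σ) : vr i ∉ kS i := by
  let E : AddSubgroup (KK σ) :=
    AddSubgroup.closure {z | ∃ a, ∃ d ∈ kZ ({i}ᶜ : Set σ), z = a ^ 2 * d}
  have hmul : ∀ z ∈ E, ∀ w ∈ E, z * w ∈ E := by
    intro z hz w hw
    induction hz using AddSubgroup.closure_induction with
    | zero => simp
    | add p q _ _ hp hq => rw [add_mul]; exact add_mem hp hq
    | neg p _ hp => rw [neg_mul]; exact neg_mem hp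
    | mem p hp =>
      obtain ⟨a, d, hd, rfl⟩ := hp
      induction hw using AddSubgroup.closure_induction with
      | zero => simp
      | add p q _ _ hp hq => rw [mul_add]; exact add_mem hp hq
      | neg p _ hp => rw [mul_neg]; exact neg_mem hp
      | mem q hq =>
        obtain ⟨b, e, he, rfl⟩ := hq
        exact AddSubgroup.subset_closure ⟨a * b, d * e, mul_mem hd he, by ring⟩
  have hsq : ∀ a, a ^ 2 ∈ E := fun a => AddSubgroup.subset_closure ⟨a, 1, one_mem _, by ring⟩
  have h1 : ∀ z ∈ kS i, z ∈ E := by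
    intro z hz
    induction hz using Subfield.closure_induction with
    | mem p hp =>
      rcases hp with ⟨a, rfl⟩ | hp
      · exact hsq a
      · exact AddSubgroup.subset_closure ⟨1, p, hp, by ring⟩
    | one => simpa using hsq 1
    | add p q _ _ hp hq => exact add_mem hp hq
    | neg p _ hp => exact neg_mem hp
    | inv p _ hp =>
      by_cases h0 : p = 0
      · simp [h0]
      · have : p⁻¹ = p⁻¹ ^ 2 * p := by field_simp
        rw [this]
        exact hmul _ (hsq _) _ hp
    | mul p q _ _ hp hq => exact hmul _ hp _ hq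
  have h2 : ∀ z ∈ E, phi ∅ (z * vr i) = 0 := by
    intro z hz
    induction hz using AddSubgroup.closure_induction with
    | zero => simp
    | add p q _ _ hp hq => rw [add_mul, map_add, hp, hq, add_zero]
    | neg p _ hp => rw [neg_mul, map_neg, hp, neg_zero]
    | mem p hp =>
      obtain ⟨a, d, hd, rfl⟩ := hp
      rw [mul_assoc, phi_sq_mul, phi_mul_vr _ _ hd]
      simp
  intro h
  have h3 := h2 _ (h1 _ h)
  rw [← pow_two, ← mul_one (vr i ^ 2), phi_sq_mul, phi_one, mul_one] at h3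
  exact vr_ne_zero i h3

end

end Pool.Agent.H896Z.FS
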