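import Pool.Agent.H896Z.FS.Series

namespace Pool.Agent.H896Z.FS

open PowerSeries

noncomputable section

variable {k : Type} [Field k]

/-- local subrings of the power series ring with maximal ideal generated by `x, y` -/
structure PreGood (A : Subring (TT k)) : Prop where
  hx : xx ∈ A
  hy : yy ∈ A
  inv : ∀ t q, q ∈ A → IsUnit q → t * q ∈ A → t ∈ A
  dec : ∀ a ∈ A, res a = 0 → ∃ p ∈ A, ∃ q ∈ A, a = xx * p + yy * q

/-- finitely generated ideals are contracted -/
def Pure (A : Subring (TT k)) : Prop :=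
  ∀ s : Set (TT k), s.Finite → s ⊆ A → ∀ b ∈ A, b ∈ Ideal.span s → b ∈ Submodule.span A s

/-- residues of the family `e` are linearly independent over the residue field of `A` -/
def ResInd (A : Subring (TT k)) {β : Type} (s : Finset β) (e : β → TT k) : Prop :=
  ∀ a : β → TT k, (∀ i ∈ s, a i ∈ A) → res (∑ i ∈ s, a i * e i) = 0 → ∀ i ∈ s, res (a i) = 0

variable {A : Subring (TT k)}

lemma lemX1 (hA : PreGood A) {β : Type} {s : Finset β} {e : β → TT k} (he : ResInd A s e)
    (j : ℕ) : ∀ a : β → TT k, (∀ i ∈ s, a i ∈ A) →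
      (∃ u v, ∑ i ∈ s, a i * e i = xx * u + yy ^ j * v) →
      ∀ i ∈ s, ∃ p ∈ A, ∃ q ∈ A, a i = xx * p + yy ^ j * q := by
  induction j with
  | zero => intro a ha _ i hi; exact ⟨0, zero_mem _, a i, ha i hi, by ring⟩
  | succ j ih =>
    rintro a ha ⟨u, v, huv⟩
    have h1 := ih a ha ⟨u, yy * v, by rw [huv]; ring⟩
    choose! p hp q hq hpq using h1
    have h2 : xx ∣ yy ^ j * (∑ i ∈ s, q i * e i - yy * v) := by
      refine ⟨u - ∑ i ∈ s, p i * e i, ?_⟩
      have : ∑ i ∈ s, a i * e i = xx * ∑ i ∈ s, p i * e i + yy ^ j * ∑ i ∈ s, q i * e i := by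
        rw [Finset.mul_sum, Finset.mul_sum, ← Finset.sum_add_distrib]
        exact Finset.sum_congr rfl fun i hi => by rw [hpq i hi]; ring
      linear_combination huv - this
    obtain ⟨w, hw⟩ := xx_dvd_of_yy_pow_mul h2
    have h3 : res (∑ i ∈ s, q i * e i) = 0 := by
      rw [sub_eq_iff_eq_add.1 hw]; simp
    intro i hi
    obtain ⟨p', hp', q', hq', e'⟩ := hA.dec _ (hq i hi) (he q hq h3 i hi)
    refine ⟨p i + yy ^ j * p', add_mem (hp i hi) (mul_mem (pow_mem hA.hy _) hp'), q', hq', ?_⟩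
    rw [hpq i hi, e']; ring

lemma lemX (hA : PreGood A) {β : Type} {s : Finset β} {e : β → TT k} (he : ResInd A s e)
    (j i : ℕ) : ∀ a : β → TT k, (∀ l ∈ s, a l ∈ A) →
      (∃ u v, ∑ l ∈ s, a l * e l = xx ^ i * u + yy ^ j * v) →
      ∀ l ∈ s, ∃ p ∈ A, ∃ q ∈ A, a l = xx ^ i * p + yy ^ j * q := by
  induction i with
  | zero => intro a ha _ i hi; exact ⟨a i, ha i hi, 0, zero_mem _, by ring⟩
  | succ i ih =>
    rintro a ha ⟨u, v, huv⟩
    have h1 := lemX1 hA he j a ha ⟨xx ^ i * u, v, by rw [huv]; ring⟩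
    choose! p hp q hq hpq using h1
    have e1 : ∑ i ∈ s, a i * e i = xx * ∑ i ∈ s, p i * e i + yy ^ j * ∑ i ∈ s, q i * e i := by
      rw [Finset.mul_sum, Finset.mul_sum, ← Finset.sum_add_distrib]
      exact Finset.sum_congr rfl fun i hi => by rw [hpq i hi]; ring
    have h2 : xx ∣ yy ^ j * (v - ∑ i ∈ s, q i * e i) :=
      ⟨∑ i ∈ s, p i * e i - xx ^ i * u, by linear_combination e1 - huv⟩
    obtain ⟨w, hw⟩ := xx_dvd_of_yy_pow_mul h2
    have h3 : ∑ l ∈ s, p l * e l = xx ^ i * u + yy ^ j * w := by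
      apply mul_left_cancel₀ xx_ne_zero
      linear_combination huv - e1 + yy ^ j * hw
    intro l hl
    obtain ⟨p', hp', q', hq', e'⟩ := ih p hp ⟨u, w, h3⟩ l hl
    refine ⟨p', hp', q l + xx * q', add_mem (hq l hl) (mul_mem hA.hx hq'), ?_⟩
    rw [hpq l hl, e']; ring

lemma PreGood.isUnit_iff (hA : PreGood A) (a : A) : IsUnit a ↔ res (a : TT k) ≠ 0 := by
  constructor
  · intro h
    exact isUnit_iff_res.1 (h.map A.subtype)
  · intro h
    have hu := isUnit_iff_res.2 h
    obtain ⟨r, hr⟩ := hu.exists_left_inv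
    exact IsUnit.of_mul_eq_one_right ⟨r, hA.inv r a a.2 hu (by rw [hr]; exact one_mem _)⟩
      (Subtype.ext hr)

lemma PreGood.isLocalRing (hA : PreGood A) : IsLocalRing A := by
  refine IsLocalRing.of_isUnit_or_isUnit_one_sub_self fun a => ?_
  rw [hA.isUnit_iff, hA.isUnit_iff]
  by_cases h : res (a : TT k) = 0
  · right; simp [h]
  · exact Or.inl h

/-- the residue field -/
def PreGood.resF (hA : PreGood A) : Subfield k where
  toSubring := A.map res
  inv_mem' := by
    rintro _ ⟨a, ha, rfl⟩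
    by_cases h : res a = 0
    · rw [h, inv_zero]; exact ⟨0, A.zero_mem, map_zero _⟩
    · have hu := isUnit_iff_res.2 h
      obtain ⟨r, hr⟩ := hu.exists_left_inv
      refine ⟨r, hA.inv r a ha hu (by rw [hr]; exact one_mem _), ?_⟩
      exact eq_inv_of_mul_eq_one_left (by rw [← map_mul, hr, map_one])

lemma span_mono_ring {A B : Subring (TT k)} (h : A ≤ B) {s : Set (TT k)} {b : TT k}
    (hb : b ∈ Submodule.span A s) : b ∈ Submodule.span B s := by
  induction hb using Submodule.span_induction with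
  | mem x hx => exact Submodule.subset_span hx
  | zero => exact zero_mem _
  | add x y _ _ hx hy => exact add_mem hx hy
  | smul a x _ hx => exact Submodule.smul_mem _ (⟨a, h a.2⟩ : B) hx

lemma mem_span_image_iff (s : Set A) (b : A) :
    (b : TT k) ∈ Submodule.span A (A.subtype '' s) ↔ b ∈ Ideal.span s := by
  have : Submodule.span A (A.subtype '' s) =
      Submodule.map (Algebra.linearMap A (TT k)) (Submodule.span A s) := by
    rw [Submodule.map_span]; rfl
  rw [this]
  constructor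
  · rintro ⟨c, hc, e⟩
    have : c = b := Subtype.ext e
    exact this ▸ hc
  · intro h
    exact ⟨b, h, rfl⟩

lemma Pure.isNoetherianRing (h : Pure A) : IsNoetherianRing A := by
  rw [isNoetherianRing_iff, isNoetherian_iff_fg_wellFounded]
  have : StrictMono fun I : {N : Submodule A A // N.FG} => Ideal.map A.subtype I.1 := by
    rintro ⟨I, hI⟩ ⟨J, hJ⟩ hIJ
    refine lt_of_le_of_ne (Ideal.map_mono hIJ.le) fun e => hIJ.not_ge fun b hb => ?_
    obtain ⟨s, rfl⟩ := hI
    have h1 : (b : TT k) ∈ Ideal.map A.subtype J := Ideal.mem_map_of_mem _ hb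
    simp only at e
    rw [← e] at h1
    erw [Ideal.map_span] at h1
    exact (mem_span_image_iff _ b).1 (h _ (s.finite_toSet.image _)
      (by rintro _ ⟨c, -, rfl⟩; exact c.2) b b.2 h1)
  exact this.wellFoundedGT

lemma PreGood.pure (hA : PreGood A) [IsNoetherianRing A] : Pure A := by
  classical
  intro s hs hsA b hb hbs
  have := hA.isLocalRing
  have hli : LinearIndepOn hA.resF id ({1} : Set k) := LinearIndepOn.singleton one_ne_zero
  let B := Module.Basis.extend hli
  let o : hli.extend (Set.subset_univ _) := ⟨1, hli.subset_extend _ rfl⟩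
  let e : hli.extend (Set.subset_univ _) → TT k := fun β => cc β.1
  have he : ∀ s, ResInd A s e := by
    intro s a ha h i hi
    have h1 := linearIndependent_iff'.1 B.linearIndependent s
      (fun i => if h : i ∈ s then ⟨res (a i), a i, ha i h, rfl⟩ else 0) (by
        rw [← h, map_sum]
        refine Finset.sum_congr rfl fun j hj => ?_
        rw [dif_pos hj, Module.Basis.extend_apply_self, map_mul, res_cc]
        rfl) i hi
    rw [dif_pos hi] at h1
    exact congrArg Subtype.val h1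
  let N : Submodule A (TT k) := Submodule.span A (Set.range e)
  have hN1 : ∀ t, ∃ n ∈ N, ∃ p q, t = n + xx * p + yy * q := by
    intro t
    have h1 : ∀ c : k, ∃ n ∈ N, res n = c := by
      intro c
      have hc : c ∈ Submodule.span hA.resF (Set.range B) := by rw [B.span_eq]; trivial
      induction hc using Submodule.span_induction with
      | mem x hx =>
        obtain ⟨i, rfl⟩ := hx
        exact ⟨e i, Submodule.subset_span ⟨i, rfl⟩, by
          rw [Module.Basis.extend_apply_self, res_cc]⟩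
      | zero => exact ⟨0, zero_mem _, map_zero _⟩
      | add x y _ _ hx hy =>
        obtain ⟨n, hn, rfl⟩ := hx
        obtain ⟨m, hm, rfl⟩ := hy
        exact ⟨n + m, add_mem hn hm, map_add _ _ _⟩
      | smul a x _ hx =>
        obtain ⟨n, hn, rfl⟩ := hx
        obtain ⟨_, a, ha, rfl⟩ := a
        exact ⟨a * n, N.smul_mem (⟨a, ha⟩ : A) hn, map_mul _ _ _⟩
    obtain ⟨n, hn, e1⟩ := h1 (res t)
    obtain ⟨p, q, e2⟩ := dec_T (t := t - n) (by rw [map_sub, e1, sub_self])
    exact ⟨n, hn, p, q, by linear_combination e2⟩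
  have hN2 : ∀ i j t, ∃ n ∈ N, ∃ p q, t = n + xx ^ i * p + yy ^ j * q := by
    have hy : ∀ j t, ∃ n ∈ N, ∃ p q, t = n + xx * p + yy ^ j * q := by
      intro j
      induction j with
      | zero => intro t; exact ⟨0, zero_mem _, 0, t, by ring⟩
      | succ j ih =>
        intro t
        obtain ⟨n, hn, p, q, e1⟩ := ih t
        obtain ⟨n', hn', p', q', e2⟩ := hN1 q
        refine ⟨n + yy ^ j * n', add_mem hn (N.smul_mem (⟨_, pow_mem hA.hy j⟩ : A) hn'),
          p + yy ^ j * p', q', ?_⟩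
        rw [e1, e2]; ring
    intro i j
    induction i with
    | zero => intro t; exact ⟨0, zero_mem _, t, 0, by ring⟩
    | succ i ih =>
      intro t
      obtain ⟨n, hn, p, q, e1⟩ := ih t
      obtain ⟨n', hn', p', q', e2⟩ := hy j p
      refine ⟨n + xx ^ i * n', add_mem hn (N.smul_mem (⟨_, pow_mem hA.hx i⟩ : A) hn'),
        p', q + xx ^ i * q', ?_⟩
      rw [e1, e2]; ring
  let J : Ideal A := Ideal.span (A.subtype ⁻¹' s)
  have hsJ : A.subtype '' (A.subtype ⁻¹' s) = s :=
    Set.image_preimage_eq_of_subset fun z hz => ⟨⟨z, hsA hz⟩, rfl⟩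
  rw [← hsJ]
  refine (mem_span_image_iff _ ⟨b, hb⟩).2 ?_
  refine krull J ⟨xx, hA.hx⟩ ⟨yy, hA.hy⟩ (by simp [hA.isUnit_iff]) (by simp [hA.isUnit_iff]) _
    fun n => ?_
  have h1 : ∀ t ∈ Ideal.span s, ∀ r, ∃ m ∈ J • N, ∃ p q, r * t = m + xx ^ n * p + yy ^ n * q := by
    intro t ht
    induction ht using Submodule.span_induction with
    | mem z hz =>
      intro r
      obtain ⟨m, hm, p, q, e1⟩ := hN2 n n r
      refine ⟨z * m, Submodule.smul_mem_smul (r := (⟨z, hsA hz⟩ : A)) (Ideal.subset_span hz) hm,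
        z * p, z * q, ?_⟩
      rw [e1]; ring
    | zero => intro r; exact ⟨0, zero_mem _, 0, 0, by ring⟩
    | add x y _ _ hx hy =>
      intro r
      obtain ⟨m, hm, p, q, e1⟩ := hx r
      obtain ⟨m', hm', p', q', e2⟩ := hy r
      exact ⟨m + m', add_mem hm hm', p + p', q + q', by linear_combination e1 + e2⟩
    | smul a x _ hx =>
      intro r
      obtain ⟨m, hm, p, q, e1⟩ := hx (r * a)
      exact ⟨m, hm, p, q, by rw [← e1, smul_eq_mul]; ring⟩
  obtain ⟨m, hm, p, q, e1⟩ := h1 b hbs 1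
  obtain ⟨v, hv, e2⟩ := (Submodule.mem_ideal_smul_span_iff_exists_sum J e m).1 hm
  let S := insert o v.support
  have e3 : ∑ l ∈ S, ((if l = o then b else 0) - (v l : TT k)) * e l = xx ^ n * p + yy ^ n * q := by
    have f1 : ∑ l ∈ S, (v l : TT k) * e l = m := by
      rw [← e2]
      exact (Finsupp.sum_of_support_subset v (Finset.subset_insert _ _) (fun i c => c • e i)
        (by simp)).symm
    simp only [sub_mul, Finset.sum_sub_distrib, f1, ite_mul, zero_mul, Finset.sum_ite_eq',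
      S, Finset.mem_insert_self, if_true]
    have : e o = 1 := map_one cc
    rw [this]
    linear_combination e1
  obtain ⟨p', hp', q', hq', e4⟩ := lemX hA (he S) n n _ (fun l _ => sub_mem (by
    split_ifs
    · exact hb
    · exact zero_mem _) (v l).2) ⟨p, q, e3⟩ o (Finset.mem_insert_self _ _)
  refine ⟨v o, hv o, ⟨p', hp'⟩, ⟨q', hq'⟩, Subtype.ext ?_⟩
  simp only [if_true] at e4
  simp only [Subring.coe_add, Subring.coe_mul, SubmonoidClass.coe_pow]
  linear_combination e4

/-- localization at the units of the power series ring -/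
def loc (S : Subring (TT k)) : Subring (TT k) where
  carrier := {t | ∃ q ∈ S, IsUnit q ∧ t * q ∈ S}
  mul_mem' := by
    rintro a b ⟨p, hp, hpu, ha⟩ ⟨q, hq, hqu, hb⟩
    exact ⟨p * q, mul_mem hp hq, hpu.mul hqu, by
      rw [show a * b * (p * q) = a * p * (b * q) by ring]; exact mul_mem ha hb⟩
  one_mem' := ⟨1, one_mem _, isUnit_one, by simp⟩
  add_mem' := by
    rintro a b ⟨p, hp, hpu, ha⟩ ⟨q, hq, hqu, hb⟩
    exact ⟨p * q, mul_mem hp hq, hpu.mul hqu, by
      rw [show (a + b) * (p * q) = a * p * q + b * q * p by ring]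
      exact add_mem (mul_mem ha hq) (mul_mem hb hp)⟩
  zero_mem' := ⟨1, one_mem _, isUnit_one, by simp⟩
  neg_mem' := by
    rintro a ⟨p, hp, hpu, ha⟩
    exact ⟨p, hp, hpu, by rw [neg_mul]; exact neg_mem ha⟩

lemma le_loc (S : Subring (TT k)) : S ≤ loc S :=
  fun t ht => ⟨1, one_mem _, isUnit_one, by simpa using ht⟩

lemma loc_inv (S : Subring (TT k)) (t q : TT k) (hq : q ∈ loc S) (hu : IsUnit q)
    (h : t * q ∈ loc S) : t ∈ loc S := by
  obtain ⟨p, hp, hpu, ha⟩ := hq
  obtain ⟨r, hr, hru, hb⟩ := h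
  refine ⟨q * p * r, mul_mem ha hr, (hu.mul hpu).mul hru, ?_⟩
  rw [show t * (q * p * r) = t * q * r * p by ring]
  exact mul_mem hb hp

lemma loc_le {S B : Subring (TT k)} (h : S ≤ B)
    (hB : ∀ t q, q ∈ B → IsUnit q → t * q ∈ B → t ∈ B) : loc S ≤ B := by
  rintro t ⟨q, hq, hu, ht⟩
  exact hB t q (h hq) hu (h ht)

lemma loc_preGood {S : Subring (TT k)} (hx : xx ∈ S) (hy : yy ∈ S)
    (hd : ∀ a ∈ S, res a = 0 → ∃ p ∈ S, ∃ q ∈ S, a = xx * p + yy * q) : PreGood (loc S) where
  hx := le_loc S hx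
  hy := le_loc S hy
  inv := loc_inv S
  dec := by
    rintro a ⟨r, hr, hu, ha⟩ h0
    obtain ⟨p, hp, q, hq, e⟩ := hd _ ha (by simp [h0])
    obtain ⟨r', hr'⟩ := hu.exists_right_inv
    refine ⟨p * r', ⟨r, hr, hu, ?_⟩, q * r', ⟨r, hr, hu, ?_⟩, ?_⟩
    · rwa [mul_assoc, mul_comm r', hr', mul_one]
    · rwa [mul_assoc, mul_comm r', hr', mul_one]
    · linear_combination r' * e - a * hr'

lemma loc_noeth (S : Subring (TT k)) [hS : IsNoetherianRing S] : IsNoetherianRing (loc S) := by
  let _ : Algebra S (loc S) := (Subring.inclusion (le_loc S)).toAlgebra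
  let M : Submonoid S := (IsUnit.submonoid (TT k)).comap S.subtype
  have : IsLocalization M (loc S) := by
    rw [isLocalization_iff]
    refine ⟨?_, ?_, ?_⟩
    · rintro ⟨q, hq⟩
      have hu : IsUnit (q : TT k) := hq
      obtain ⟨r, hr⟩ := hu.exists_left_inv
      exact IsUnit.of_mul_eq_one_right ⟨r, q, q.2, hu, by rw [hr]; exact one_mem _⟩
        (Subtype.ext hr)
    · rintro ⟨t, q, hq, hu, ht⟩
      exact ⟨(⟨t * q, ht⟩, ⟨⟨q, hq⟩, hu⟩), rfl⟩
    · intro a b h
      have : a = b := Subtype.ext (congrArg (fun z : loc S => (z : TT k)) h)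
      exact ⟨1, by rw [this]⟩
  exact IsLocalization.isNoetherianRing M _ hS

lemma loc_countable {S : Subring (TT k)} (h : (S : Set (TT k)).Countable) :
    (loc S : Set (TT k)).Countable := by
  refine ((h.prod h).image fun z : TT k × TT k => z.1 * Ring.inverse z.2).mono ?_
  rintro t ⟨q, hq, hu, ht⟩
  exact ⟨(t * q, q), ⟨ht, hq⟩, by simp [mul_assoc, Ring.mul_inverse_cancel _ hu]⟩

lemma closure_countable {s : Set (TT k)} (h : s.Countable) :
    (Subring.closure s : Set (TT k)).Countable := by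
  have := h.to_subtype
  have : Countable (MvPolynomial s ℤ) := Cardinal.mk_le_aleph0_iff.1
    (MvPolynomial.cardinalMk_le_max.trans (sup_le (sup_le Cardinal.mk_le_aleph0
      Cardinal.mk_le_aleph0) le_rfl))
  refine (Set.countable_range (MvPolynomial.aeval (R := ℤ) (fun z : s => (z : TT k)))).mono ?_
  intro t ht
  have h1 : t ∈ (MvPolynomial.aeval (R := ℤ) (fun z : s => (z : TT k))).range.toSubring := by
    refine Subring.closure_le.2 ?_ ht
    intro z hz
    exact ⟨MvPolynomial.X ⟨z, hz⟩, by simp⟩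
  exact h1

/-- `A` is `x`-adically closed in `B` -/
def Cl (A B : Subring (TT k)) : Prop := ∀ ρ ∈ B, (∀ i, ∃ a ∈ A, xx ^ i ∣ ρ - a) → ρ ∈ A

lemma Cl.trans {A B C : Subring (TT k)} (h1 : Cl A B) (h2 : Cl B C) (h : A ≤ B) : Cl A C :=
  fun ρ hρ H => h1 ρ (h2 ρ hρ fun i => (H i).imp fun _ ha => ⟨h ha.1, ha.2⟩) H

/-- adjoin an element and localize -/
def nag (A : Subring (TT k)) (ξ : TT k) : Subring (TT k) :=
  loc (Polynomial.aeval (R := A) ξ).range.toSubring

lemma le_nag (A : Subring (TT k)) (ξ : TT k) : A ≤ nag A ξ :=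
  fun a ha => le_loc _ ⟨Polynomial.C ⟨a, ha⟩, by simp; rfl⟩

lemma mem_nag (A : Subring (TT k)) (ξ : TT k) : ξ ∈ nag A ξ :=
  le_loc _ ⟨Polynomial.X, by simp⟩

lemma nag_le {A B : Subring (TT k)} {ξ : TT k} (h : A ≤ B) (hξ : ξ ∈ B)
    (hB : ∀ t q, q ∈ B → IsUnit q → t * q ∈ B → t ∈ B) : nag A ξ ≤ B := by
  refine loc_le ?_ hB
  rintro _ ⟨P, rfl⟩
  change Polynomial.aeval ξ P ∈ B
  rw [Polynomial.aeval_eq_sum_range]
  exact sum_mem fun i _ => mul_mem (h (P.coeff i).2) (pow_mem hξ i)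

lemma nag_noeth (A : Subring (TT k)) [IsNoetherianRing A] (ξ : TT k) :
    IsNoetherianRing (nag A ξ) := by
  have : IsNoetherianRing (Polynomial.aeval (R := A) ξ).range.toSubring :=
    isNoetherianRing_of_surjective _ _ (Polynomial.aeval (R := A) ξ).rangeRestrict.toRingHom
      (AlgHom.rangeRestrict_surjective _)
  exact loc_noeth _

lemma nag_countable (h : (A : Set (TT k)).Countable) (ξ : TT k) :
    (nag A ξ : Set (TT k)).Countable := by
  have : Countable A := h.to_subtype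
  have : Countable (Polynomial A) := Cardinal.mk_le_aleph0_iff.1
    (Polynomial.cardinalMk_le_max.trans (max_le Cardinal.mk_le_aleph0 le_rfl))
  exact loc_countable (Set.countable_range (Polynomial.aeval (R := A) ξ))

lemma resInd_pow {F : Subfield k} (hF : ∀ a ∈ A, res a ∈ F) {ξ : TT k}
    (hξ : Transcendental F (res ξ)) (n : ℕ) : ResInd A (Finset.range n) fun i => ξ ^ i := by
  classical
  intro a ha h i hi
  let c : ℕ → F := fun i => if h : i ∈ Finset.range n then ⟨res (a i), hF _ (ha i h)⟩ else 0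
  have h1 : ∑ i ∈ Finset.range n, Polynomial.monomial i (c i) = 0 := by
    by_contra hne
    refine hξ ⟨_, hne, ?_⟩
    rw [← h, map_sum, map_sum]
    refine Finset.sum_congr rfl fun j hj => ?_
    simp only [c, dif_pos hj, Polynomial.aeval_monomial, map_mul, map_pow]
    rfl
  have h2 := congrArg (fun P => Polynomial.coeff P i) h1
  simp only [Polynomial.finsetSum_coeff, Polynomial.coeff_monomial, Finset.sum_ite_eq',
    if_pos hi, Polynomial.coeff_zero, c, dif_pos hi] at h2
  exact congrArg Subtype.val h2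

lemma aeval_eq_sum (P : Polynomial A) (ξ : TT k) {n : ℕ} (hn : P.natDegree < n) :
    Polynomial.aeval ξ P = ∑ i ∈ Finset.range n, (P.coeff i : TT k) * ξ ^ i :=
  Polynomial.aeval_eq_sum_range' hn ξ

lemma nag_preGood (hA : PreGood A) {F : Subfield k} (hF : ∀ a ∈ A, res a ∈ F) {ξ : TT k}
    (hξ : Transcendental F (res ξ)) : PreGood (nag A ξ) := by
  have hC : ∀ a ∈ A, a ∈ (Polynomial.aeval (R := A) ξ).range.toSubring :=
    fun a ha => ⟨Polynomial.C ⟨a, ha⟩, by simp; rfl⟩
  have hX : ξ ∈ (Polynomial.aeval (R := A) ξ).range.toSubring := ⟨Polynomial.X, by simp⟩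
  refine loc_preGood (hC _ hA.hx) (hC _ hA.hy) ?_
  rintro _ ⟨P, rfl⟩ h
  change res (Polynomial.aeval ξ P) = 0 at h
  rw [aeval_eq_sum P ξ (Nat.lt_succ_self _)] at h
  have h1 := fun i hi => hA.dec _ (P.coeff i).2
    (resInd_pow hF hξ _ (fun i => P.coeff i) (fun i _ => (P.coeff i).2) h i hi)
  choose! p hp q hq hpq using h1
  refine ⟨∑ i ∈ Finset.range (P.natDegree + 1), p i * ξ ^ i,
    sum_mem fun i hi => mul_mem (hC _ (hp i hi)) (pow_mem hX i),
    ∑ i ∈ Finset.range (P.natDegree + 1), q i * ξ ^ i,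
    sum_mem fun i hi => mul_mem (hC _ (hq i hi)) (pow_mem hX i), ?_⟩
  change Polynomial.aeval ξ P = _
  rw [aeval_eq_sum P ξ (Nat.lt_succ_self _), Finset.mul_sum, Finset.mul_sum,
    ← Finset.sum_add_distrib]
  exact Finset.sum_congr rfl fun i hi => by rw [hpq i hi]; ring

lemma nag_cl (hA : PreGood A) {F : Subfield k} (hF : ∀ a ∈ A, res a ∈ F) {ξ : TT k}
    (hξ : Transcendental F (res ξ)) : Cl A (nag A ξ) := by
  rintro ρ ⟨_, ⟨Q, rfl⟩, hu, P, hP⟩ H
  change IsUnit (Polynomial.aeval ξ Q) at hu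
  change Polynomial.aeval ξ P = ρ * Polynomial.aeval ξ Q at hP
  set n := max P.natDegree Q.natDegree + 1 with hn
  rw [aeval_eq_sum P ξ (n := n) (by omega)] at hP
  rw [aeval_eq_sum Q ξ (n := n) (by omega)] at hP hu
  have h1 : ∃ ν ∈ Finset.range n, res (Q.coeff ν : TT k) ≠ 0 := by
    by_contra hcon
    push Not at hcon
    apply isUnit_iff_res.1 hu
    rw [map_sum]
    exact Finset.sum_eq_zero fun i hi => by rw [map_mul, hcon i hi, zero_mul]
  obtain ⟨ν, hν, hq⟩ := h1
  have hqu := isUnit_iff_res.2 hq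
  refine hA.inv ρ _ (Q.coeff ν).2 hqu ?_
  have h2 : ρ * (Q.coeff ν : TT k) - (P.coeff ν : TT k) = 0 := by
    refine eq_zero_of_X_pow_dvd fun i => ?_
    obtain ⟨a, ha, w, hw⟩ := H i
    have h3 : xx ^ i ∣ (P.coeff ν : TT k) - a * (Q.coeff ν : TT k) := by
      refine xx_pow_dvd_of_forall fun j => ?_
      obtain ⟨p, -, q, -, e⟩ := lemX hA (resInd_pow hF hξ n) j i
        (fun l => (P.coeff l : TT k) - a * (Q.coeff l : TT k))
        (fun l _ => sub_mem (P.coeff l).2 (mul_mem ha (Q.coeff l).2))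
        ⟨w * ∑ i ∈ Finset.range n, (Q.coeff i : TT k) * ξ ^ i, 0, by
          simp only [sub_mul, Finset.sum_sub_distrib, mul_assoc a, ← Finset.mul_sum, hP]
          linear_combination (∑ i ∈ Finset.range n, (Q.coeff i : TT k) * ξ ^ i) * hw⟩ ν hν
      exact ⟨p, q, e⟩
    obtain ⟨z, hz⟩ := h3
    exact ⟨w * (Q.coeff ν : TT k) - z, by
      change _ = xx ^ i * _
      linear_combination (Q.coeff ν : TT k) * hw - hz⟩
  rw [sub_eq_zero.1 h2]
  exact (P.coeff ν).2

section directed

variable {ι : Type} [Nonempty ι] {S : ι → Subring (TT k)}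

lemma preGood_iSup (hd : Directed (· ≤ ·) S) (h : ∀ i, PreGood (S i)) : PreGood (⨆ i, S i) where
  hx := le_iSup S (Classical.arbitrary ι) (h _).hx
  hy := le_iSup S (Classical.arbitrary ι) (h _).hy
  inv := by
    intro t q hq hu ht
    obtain ⟨i, hi⟩ := (Subring.mem_iSup_of_directed hd).1 hq
    obtain ⟨j, hj⟩ := (Subring.mem_iSup_of_directed hd).1 ht
    obtain ⟨l, h1, h2⟩ := hd i j
    exact le_iSup S l ((h l).inv t q (h1 hi) hu (h2 hj))
  dec := by
    intro a ha h0
    obtain ⟨i, hi⟩ := (Subring.mem_iSup_of_directed hd).1 ha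
    obtain ⟨p, hp, q, hq, e⟩ := (h i).dec a hi h0
    exact ⟨p, le_iSup S i hp, q, le_iSup S i hq, e⟩

lemma pure_iSup (hd : Directed (· ≤ ·) S) (h : ∀ i, Pure (S i)) : Pure (⨆ i, S i) := by
  intro s hs hsA b hb hbs
  have h1 : ∀ t : Set (TT k), t.Finite → t ⊆ (⨆ i, S i : Subring (TT k)) → ∃ i, t ⊆ S i := by
    intro t ht
    induction t, ht using Set.Finite.induction_on with
    | empty => intro _; exact ⟨Classical.arbitrary ι, Set.empty_subset _⟩
    | insert _ _ ih =>
      intro hsub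
      obtain ⟨i, hi⟩ := ih ((Set.subset_insert _ _).trans hsub)
      obtain ⟨j, hj⟩ := (Subring.mem_iSup_of_directed hd).1 (hsub (Set.mem_insert _ _))
      obtain ⟨l, h1, h2⟩ := hd i j
      exact ⟨l, Set.insert_subset (h2 hj) fun z hz => h1 (hi hz)⟩
  obtain ⟨i, hi⟩ := h1 (insert b s) (hs.insert b) (Set.insert_subset hb hsA)
  exact span_mono_ring (le_iSup S i) (h i s hs ((Set.subset_insert _ _).trans hi) b
    (hi (Set.mem_insert _ _)) hbs)

end directed

/-- generation over squares by squarefree monomials -/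
lemma mem_sqfree_closure {I : Type} (A : Subring (TT k)) (z : I → TT k) {t : TT k}
    (ht : t ∈ Subring.closure (A ∪ Set.range z)) :
    t ∈ AddSubgroup.closure {u | ∃ ρ ∈ Subring.closure (A ∪ Set.range z), ∃ a ∈ A,
      ∃ F : Finset I, u = ρ ^ 2 * (a * ∏ i ∈ F, z i)} := by
  classical
  set E := AddSubgroup.closure {u | ∃ ρ ∈ Subring.closure (A ∪ Set.range z), ∃ a ∈ A,
      ∃ F : Finset I, u = ρ ^ 2 * (a * ∏ i ∈ F, z i)} with hE
  have h1 : ∀ g : TT k, (∀ ρ ∈ Subring.closure (A ∪ Set.range z), ∀ a ∈ A, ∀ F : Finset I,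
      g * (ρ ^ 2 * (a * ∏ i ∈ F, z i)) ∈ E) → ∀ u ∈ E, g * u ∈ E := by
    intro g hg u hu
    induction hu using AddSubgroup.closure_induction with
    | mem u hu => obtain ⟨ρ, hρ, a, ha, F, rfl⟩ := hu; exact hg ρ hρ a ha F
    | zero => simp
    | add u v _ _ hu hv => rw [mul_add]; exact add_mem hu hv
    | neg u _ hu => rw [mul_neg]; exact neg_mem hu
  have h2 : ∀ u ∈ E, t * u ∈ E := by
    induction ht using Subring.closure_induction with
    | mem g hg =>
      refine h1 g fun ρ hρ a ha F => AddSubgroup.subset_closure ?_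
      rcases hg with hg | ⟨i, rfl⟩
      · exact ⟨ρ, hρ, g * a, mul_mem hg ha, F, by ring⟩
      · by_cases hi : i ∈ F
        · refine ⟨ρ * z i, mul_mem hρ (Subring.subset_closure (Or.inr ⟨i, rfl⟩)), a, ha,
            F.erase i, ?_⟩
          rw [← Finset.mul_prod_erase F z hi]; ring
        · refine ⟨ρ, hρ, a, ha, insert i F, ?_⟩
          rw [Finset.prod_insert hi]; ring
    | zero => intro u _; simp
    | one => intro u hu; simpa using hu
    | add a b _ _ ha hb => intro u hu; rw [add_mul]; exact add_mem (ha u hu) (hb u hu)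
    | neg a _ ha => intro u hu; rw [neg_mul]; exact neg_mem (ha u hu)
    | mul a b _ _ ha hb => intro u hu; rw [mul_assoc]; exact ha _ (hb u hu)
  have := h2 1 (AddSubgroup.subset_closure ⟨1, one_mem _, 1, one_mem _, ∅, by simp⟩)
  simpa using this

end

end Pool.Agent.H896Z.FS
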