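import Mathlib

namespace Pool.Agent.H896Z.FS

open Filter

variable {A V : Type} [CommRing A] [IsDomain A] [AddCommGroup V] [Module A V]

lemma lin_comb (P : Submodule A V) (f : ℕ → V →ₗ[A] A) (n : ℕ) : ∀ ψ : V →ₗ[A] A,
    (∀ v ∈ P, (∀ i < n, f i v = 0) → ψ v = 0) →
      ∃ d : A, d ≠ 0 ∧ ∃ a : ℕ → A, ∀ v ∈ P, d * ψ v = ∑ i ∈ Finset.range n, a i * f i v := by
  induction n with
  | zero => intro ψ h; exact ⟨1, one_ne_zero, 0, fun v hv => by simpa using h v hv (by simp)⟩
  | succ n ih =>
    intro ψ h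
    by_cases h1 : ∀ v ∈ P, (∀ i < n, f i v = 0) → f n v = 0
    · obtain ⟨d, hd, a, ha⟩ := ih ψ fun v hv hi => h v hv fun i hin => by
        rcases Nat.lt_succ_iff_lt_or_eq.1 hin with h2 | rfl
        · exact hi i h2
        · exact h1 v hv hi
      refine ⟨d, hd, fun i => if i < n then a i else 0, fun v hv => ?_⟩
      beta_reduce
      rw [ha v hv, Finset.sum_range_succ, if_neg (lt_irrefl n), zero_mul, add_zero]
      exact Finset.sum_congr rfl fun i hi => by rw [if_pos (Finset.mem_range.1 hi)]
    · push Not at h1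
      obtain ⟨w, hw, hw1, hw2⟩ := h1
      obtain ⟨d, hd, a, ha⟩ := ih (f n w • ψ - ψ w • f n) fun v hv hi => by
        have := h (f n w • v - f n v • w) (sub_mem (P.smul_mem _ hv) (P.smul_mem _ hw))
          fun i hin => by
            rcases Nat.lt_succ_iff_lt_or_eq.1 hin with h2 | rfl
            · simp [hi i h2, hw1 i h2]
            · simp [mul_comm]
        simpa [mul_comm] using this
      refine ⟨d * f n w, mul_ne_zero hd hw2, fun i => if i < n then a i else d * ψ w,
        fun v hv => ?_⟩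
      have h2 := ha v hv
      beta_reduce
      rw [Finset.sum_range_succ, if_neg (lt_irrefl n), Finset.sum_congr rfl
        (g := fun i => a i * f i v) fun i hi => by rw [if_pos (Finset.mem_range.1 hi)], ← h2]
      simp only [LinearMap.sub_apply, LinearMap.smul_apply, smul_eq_mul]
      ring

theorem mackey [IsNoetherianRing A] (B : V →ₗ[A] V →ₗ[A] A) (hB : ∀ t, (∀ v, B t v = 0) → t = 0)
    (s : ℕ → V) (hs : Function.Surjective s) :
    ∃ c : ℕ → V, (∀ t, ∀ᶠ n in atTop, B t (c n) = 0) ∧
      ∀ ψ : V →ₗ[A] A, (∀ᶠ n in atTop, ψ (c n) = 0) →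
        ∃ d : A, d ≠ 0 ∧ ∃ t, ∀ v, d * ψ v = B t v := by
  classical
  let P : ℕ → Submodule A V := fun n => Submodule.span A (s '' Set.Iio n)
  have hPfg : ∀ n, (P n).FG := fun n => Submodule.fg_span ((Set.finite_Iio n).image _)
  have hPmono : Monotone P := fun a b h => Submodule.span_mono (Set.image_mono (Set.Iio_subset_Iio h))
  have hsP : ∀ i n, i < n → s i ∈ P n := fun i n h => Submodule.subset_span ⟨i, h, rfl⟩
  have hh : ∀ n, ∃ m, ∀ t ∈ P n, (∀ i < m, B t (s i) = 0) → t = 0 := by
    intro n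
    have : Module.Finite A (P n) := .of_fg (hPfg n)
    let ev : ℕ → (P n →ₗ[A] A) := fun i => (B.flip (s i)).domRestrict (P n)
    let W : ℕ →o Submodule A (P n →ₗ[A] A) := ⟨fun m => Submodule.span A (ev '' Set.Iio m),
      fun a b h => Submodule.span_mono (Set.image_mono (Set.Iio_subset_Iio h))⟩
    obtain ⟨m, hm⟩ := monotone_stabilizes_iff_noetherian.2 inferInstance W
    refine ⟨m, fun t ht h0 => hB t fun v => ?_⟩
    obtain ⟨i, rfl⟩ := hs v
    have h1 : ev i ∈ W m := by
      rw [hm (max m (i + 1)) (le_max_left _ _)]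
      exact Submodule.subset_span ⟨i, lt_of_lt_of_le (Nat.lt_succ_self i) (le_max_right _ _), rfl⟩
    have h2 : ∀ z ∈ W m, z ⟨t, ht⟩ = 0 := by
      intro z hz
      induction hz using Submodule.span_induction with
      | mem z hz => obtain ⟨j, hj, rfl⟩ := hz; exact h0 j hj
      | zero => rfl
      | add a b _ _ ha hb => simp [ha, hb]
      | smul a b _ hb => simp [hb]
    exact h2 _ h1
  choose h hh using hh
  let H : ℕ → ℕ := fun n => n + ∑ j ∈ Finset.range (n + 1), h j
  have H1 : ∀ n, h n ≤ H n := fun n => le_add_left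
    (Finset.single_le_sum (f := h) (fun _ _ => Nat.zero_le _) (Finset.self_mem_range_succ n))
  have H2 : ∀ n, H n ≤ H (n + 1) := fun n => by
    simp only [H, Finset.sum_range_succ _ (n + 1)]; omega
  have H3 : ∀ n, n ≤ H n := fun n => Nat.le_add_right _ _
  let C : ℕ → Submodule A V := fun n => P (H (n + 1)) ⊓ ⨅ i : Fin n, LinearMap.ker (B (s i))
  have hC : ∀ n, (C n).FG := fun n => (hPfg _).of_le inf_le_left
  choose E hE using hC
  refine ⟨fun l => (E l.unpair.1).toList.getD l.unpair.2 0, ?_, ?_⟩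
  · intro t
    obtain ⟨i, rfl⟩ := hs t
    rw [← Nat.cofinite_eq_atTop, eventually_cofinite]
    refine ((Finset.range (i + 1)).biUnion fun n =>
      (Finset.range (E n).toList.length).image (Nat.pair n)).finite_toSet.subset fun l hl => ?_
    simp only [Set.mem_ofPred_eq] at hl
    have h1 : l.unpair.2 < (E l.unpair.1).toList.length := by
      by_contra hcon
      rw [List.getD_eq_default _ _ (not_lt.1 hcon)] at hl
      exact hl (map_zero _)
    have h2 : l.unpair.1 < i + 1 := by
      by_contra hcon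
      apply hl
      rw [List.getD_eq_getElem _ _ h1]
      have h3 : (E l.unpair.1).toList[l.unpair.2] ∈ C l.unpair.1 := by
        rw [← hE]
        exact Submodule.subset_span (Finset.mem_toList.1 (List.getElem_mem h1))
      exact (Submodule.mem_iInf _).1 h3.2 ⟨i, by omega⟩
    simp only [Finset.coe_biUnion, Finset.coe_range, Set.mem_Iio, Finset.coe_image,
      Set.mem_iUnion, Set.mem_image]
    exact ⟨_, h2, _, h1, Nat.pair_unpair l⟩
  · intro ψ hψ
    obtain ⟨n0, hn0⟩ := eventually_atTop.1 hψ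
    have h1 : ∀ n, ∃ d : A, d ≠ 0 ∧ ∃ t ∈ P (n0 + n), ∀ v ∈ P (H (n0 + n + 1)),
        d * ψ v = B t v := by
      intro n
      obtain ⟨d, hd, a, ha⟩ := lin_comb (P (H (n0 + n + 1))) (fun i => B (s i)) (n0 + n) ψ
        fun v hv hi => by
          have h2 : v ∈ C (n0 + n) := ⟨hv, (Submodule.mem_iInf _).2 fun i => hi i i.2⟩
          rw [← hE] at h2
          refine (Submodule.span_le (p := LinearMap.ker ψ)).2 (fun z hz => ?_) h2
          obtain ⟨j, hj, rfl⟩ := List.getElem_of_mem (Finset.mem_toList.2 hz)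
          have := hn0 (Nat.pair (n0 + n) j)
            ((Nat.le_add_right _ _).trans (Nat.left_le_pair _ _))
          simp only [Nat.unpair_pair] at this
          rwa [List.getD_eq_getElem _ _ hj] at this
      refine ⟨d, hd, ∑ i ∈ Finset.range (n0 + n), a i • s i,
        sum_mem fun i hi => (P _).smul_mem _ (hsP _ _ (Finset.mem_range.1 hi)), fun v hv => ?_⟩
      rw [ha v hv]
      simp
    choose d hd t ht hdt using h1
    have htf : ∀ (a : A) (z : V), a ≠ 0 → a • z = 0 → z = 0 := fun a z ha hz =>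
      hB z fun v => by
        have : B (a • z) v = 0 := by rw [hz]; simp
        simpa [ha] using this
    have h2 : ∀ n, d (n + 1) • t n = d n • t (n + 1) := by
      intro n
      rw [← sub_eq_zero]
      refine hh (n0 + n + 1) _ (sub_mem ((P _).smul_mem _ (hPmono (Nat.le_succ _) (ht n)))
        ((P _).smul_mem _ (ht (n + 1)))) fun i hi => ?_
      have h3 : s i ∈ P (H (n0 + n + 1)) := hsP _ _ (hi.trans_le (H1 _))
      have h4 := hdt n _ h3
      have h5 := hdt (n + 1) _ (hPmono (H2 _) h3)
      simp only [map_sub, map_smul, LinearMap.sub_apply, LinearMap.smul_apply, smul_eq_mul]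
      rw [← h4, ← h5]; ring
    have h3 : ∀ n, d n • t 0 = d 0 • t n := by
      intro n
      induction n with
      | zero => rfl
      | succ n ih =>
        rw [← sub_eq_zero]
        refine htf (d n) _ (hd n) ?_
        rw [smul_sub, smul_comm (d n) (d (n + 1)), ih, smul_comm (d n) (d 0), ← h2,
          smul_comm (d 0), sub_self]
    refine ⟨d 0, hd 0, t 0, fun v => ?_⟩
    obtain ⟨i, rfl⟩ := hs v
    have h4 := hdt i (s i) (hsP _ _ (lt_of_lt_of_le (by omega) (H3 _)))
    apply mul_left_cancel₀ (hd i)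
    have h5 := congrArg (fun z => B z (s i)) (h3 i)
    simp only [map_smul, LinearMap.smul_apply, smul_eq_mul] at h5
    rw [h5, ← h4]; ring

end Pool.Agent.H896Z.FS
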