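import Pool.Agent.H896Z.FS.Chain

namespace Pool.Agent.H896Z.FS

open PowerSeries Filter

noncomputable section

variable {ι : Type} [LinearOrder ι] [WellFoundedLT ι]

section final

variable (hc : ∀ a : ι, (Set.Iio a).Countable) [Uncountable ι]
include hc

lemma exists_closed {X : Type} (B : ι → Set X) (hB : ∀ α, (B α).Countable) (hm : Monotone B)
    (hcov : ∀ x, ∃ α, x ∈ B α)
    (hlim : ∀ ω, ∀ x ∈ B ω, (∀ α, x ∈ B α) ∨ ∃ β < ω, ∀ γ, β < γ → x ∈ B γ)
    (f : X → X) (g : X → X → X) :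
    ∃ ω, (∀ x ∈ B ω, f x ∈ B ω) ∧ ∀ x ∈ B ω, ∀ y ∈ B ω, g x y ∈ B ω := by
  choose rk hrk using hcov
  have hnxt : ∀ α : ι, ∃ β, α < β ∧ (∀ s ∈ B α, f s ∈ B β) ∧
      ∀ d ∈ B α, ∀ t ∈ B α, g d t ∈ B β := by
    intro α
    obtain ⟨β, hβ⟩ := exists_bound hc ((((hB α).image fun s => rk (f s)).union
      (((hB α).prod (hB α)).image fun z => rk (g z.1 z.2))).insert α)
    exact ⟨β, hβ α (Set.mem_insert _ _),
      fun s hs => hm (hβ _ (Or.inr (Or.inl ⟨s, hs, rfl⟩))).le (hrk _),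
      fun d hd t ht => hm (hβ _ (Or.inr (Or.inr ⟨(d, t), ⟨hd, ht⟩, rfl⟩))).le (hrk _)⟩
  choose nxt h1 h2 h3 using hnxt
  let a : ℕ → ι := fun n => nxt^[n] (Classical.arbitrary ι)
  have ha : ∀ n, a (n + 1) = nxt (a n) := fun n => Function.iterate_succ_apply' _ _ _
  have hamono : StrictMono a := strictMono_nat_of_lt_succ fun n => by rw [ha]; exact h1 _
  obtain ⟨ω, hω, hmin⟩ := (wellFounded_lt (α := ι)).has_min {b | ∀ n, a n < b} (by
    obtain ⟨b, hb⟩ := exists_bound hc (Set.countable_range a)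
    exact ⟨b, fun n => hb _ ⟨n, rfl⟩⟩)
  have hl : ∀ t ∈ B ω, ∃ n, t ∈ B (a n) := by
    intro t ht
    rcases hlim ω t ht with h | ⟨β, hβ, h⟩
    · exact ⟨0, h _⟩
    · have : ∃ n, β ≤ a n := by
        by_contra hcon
        push Not at hcon
        exact hmin β hcon hβ
      obtain ⟨n, hn⟩ := this
      exact ⟨n + 1, h _ (hn.trans_lt (hamono (Nat.lt_succ_self n)))⟩
  refine ⟨ω, fun s hs => ?_, fun d hd t ht => ?_⟩
  · obtain ⟨n, hn⟩ := hl _ hs
    refine hm (hω (n + 1)).le ?_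
    rw [ha]
    exact h2 _ s hn
  · obtain ⟨n, hn⟩ := hl d hd
    obtain ⟨m, hm'⟩ := hl t ht
    refine hm (hω (max n m + 1)).le ?_
    rw [ha]
    exact h3 _ d (hm (hamono.monotone (le_max_left _ _)) hn) t
      (hm (hamono.monotone (le_max_right _ _)) hm')

omit hc [Uncountable ι] in
lemma below_mono {α β : ι} (h : α ≤ β) : below α ≤ below β :=
  sup_le (le_sup_left : A0 ι ≤ below β)
    (iSup_le fun γ : Set.Iio α => FF_le_below (lt_of_lt_of_le γ.2 h))

lemma exists_closed_RR (f : RR ι → RR ι) (g : RR ι → RR ι → RR ι) :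
    ∃ ω : ι, (∀ x : RR ι, x.1 ∈ below ω → (f x).1 ∈ below ω) ∧
      ∀ x : RR ι, x.1 ∈ below ω → ∀ y : RR ι, y.1 ∈ below ω → (g x y).1 ∈ below ω := by
  refine exists_closed hc (fun α => {r : RR ι | r.1 ∈ below α}) ?_ ?_ ?_ ?_ f g
  · intro α
    have h1 : (below α : Set (TI ι)).Countable :=
      (stage hc α).1.inv.cnt.mono (stage hc α).1.le
    exact h1.preimage Subtype.val_injective
  · intro α β h r hr
    exact below_mono h hr
  · intro r
    obtain ⟨α, hα⟩ := (mem_RR hc).1 r.2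
    obtain ⟨β, hβ⟩ := exists_bound hc (Set.countable_singleton α)
    exact ⟨β, FF_le_below (hβ α rfl) hα⟩
  · intro ω r hr
    rcases (stage hc ω).2 r.1 hr with h | ⟨β, hβ, h⟩
    · exact Or.inl fun α => (le_sup_left : A0 ι ≤ below α) h
    · exact Or.inr ⟨β, hβ, fun γ hγ => FF_le_below hγ h⟩

lemma exists_mul_eq (ψ : RR ι →+ RR ι) (hψ : ∀ r s, ψ (r ^ 2 * s) = r * ψ s) :
    ∃ d t : RR ι, d ≠ 0 ∧ ∀ s : RR ι, d.1 * (ψ s).1 = gg (t.1 * s.1) := by
  by_contra hcon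
  have hcon' : ∀ d t : RR ι, ∃ s : RR ι, d ≠ 0 → d.1 * (ψ s).1 ≠ gg (t.1 * s.1) := by
    intro d t
    by_contra h
    refine hcon ⟨d, t, fun h0 => h ⟨0, fun h1 => absurd h0 h1⟩, fun s => ?_⟩
    by_contra h2
    exact h ⟨s, fun _ => h2⟩
  choose fail hfail using hcon'
  obtain ⟨ω, h2, h3⟩ := exists_closed_RR hc ψ fail
  have hle : FF ω ≤ RR ι := le_iSup FF ω
  obtain ⟨d, hd, hd0, t, ht, H⟩ := (stage hc ω).1.test (RR ι) hle (cl_RR hc ω) ψ hψ h2
  have hd' : d ∈ RR ι := hle ((stage hc ω).1.le hd)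
  have ht' : t ∈ RR ι := hle ((stage hc ω).1.le ht)
  exact hfail ⟨d, hd'⟩ ⟨t, ht'⟩ (fun h => hd0 (congrArg Subtype.val h))
    (H _ (h3 ⟨d, hd'⟩ hd ⟨t, ht'⟩ ht))

lemma level_one (ψ : RR ι →+ RR ι) (hψ : ∀ r s, ψ (r ^ 2 * s) = r * ψ s) :
    ∃ t : RR ι, ∀ s : RR ι, (ψ s).1 = gg (t.1 * s.1) := by
  obtain ⟨⟨d, hdR⟩, ⟨t, htR⟩, hd, H⟩ := exists_mul_eq hc ψ hψ
  have hd0 : d ≠ 0 := fun h => hd (Subtype.ext h)
  have hpoly : ∀ (D : Set (KK (Vars ι))), ∀ u ∈ PolyD D, u ∈ RR ι := by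
    intro D u hu
    refine (AddSubgroup.closure_le (RR ι).toAddSubgroup).2 ?_ hu
    rintro _ ⟨γ, -, a, b, rfl⟩
    change _ ∈ RR ι
    exact mul_mem (mul_mem (cc_mem_RR hc γ) (pow_mem (RR_pre hc).hx a)) (pow_mem (RR_pre hc).hy b)
  have h1 : ∀ s, d ∣ gg (t * s) := by
    intro s
    refine dvd_of_approx fun n => ?_
    obtain ⟨D, s', hs', p, q, rfl⟩ := exists_trunc2 s (2 * n)
    refine ⟨(ψ ⟨s', hpoly _ _ hs'⟩).1, gg (t * p), gg (t * q), ?_⟩
    rw [H ⟨s', hpoly _ _ hs'⟩, ← gg_sq_mul, ← gg_sq_mul, ← map_add, ← map_add]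
    congr 1; ring
  have h2 : ∀ s, d ∣ (xx + yy) * Phi (phi (Lam ι)) (t * s) := by
    intro s
    refine dvd_of_approx fun n => ?_
    obtain ⟨D, h', hh', p, q, e⟩ := exists_trunc2 (t * s) (2 * n)
    have h3 : ∃ i ∈ Lam ι, h' ∈ TF (kZ ({i}ᶜ : Set _)) := by
      classical
      choose V hV using exists_finset_kZ (σ := Vars ι)
      have hinf : (Lam ι).Infinite := Set.infinite_range_of_injective Sum.inl_injective
      obtain ⟨i, hi, hi2⟩ := hinf.exists_notMem_finset (D.biUnion V)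
      refine ⟨i, hi, (AddSubgroup.closure_le (TF _).toAddSubgroup).2 ?_ hh'⟩
      rintro _ ⟨γ, hγ, a, b, rfl⟩
      change _ ∈ TF _
      refine mul_mem (mul_mem (cc_mem_TF (kZ_mono ?_ (hV γ))) (pow_mem (xx_mem_TF _) a))
        (pow_mem (yy_mem_TF _) b)
      exact Set.subset_compl_singleton_iff.2 fun h => hi2 (Finset.mem_biUnion.2 ⟨γ, hγ, h⟩)
    obtain ⟨i, hi, hi2⟩ := h3
    obtain ⟨r, hr⟩ := h1 (s * cc (vr i))
    refine ⟨r, (xx + yy) * Phi (phi (Lam ι)) p - gg (p * cc (vr i)),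
      (xx + yy) * Phi (phi (Lam ι)) q - gg (q * cc (vr i)), ?_⟩
    have e1 : t * (s * cc (vr i)) = h' * cc (vr i) + (xx ^ n) ^ 2 * (p * cc (vr i)) +
        (yy ^ n) ^ 2 * (q * cc (vr i)) := by rw [← mul_assoc, e]; ring
    have e2 : t * s = h' + (xx ^ n) ^ 2 * p + (yy ^ n) ^ 2 * q := by rw [e]; ring
    rw [e1, map_add, map_add, gg_sq_mul, gg_sq_mul, gg_mul_lam hi hi2] at hr
    rw [← hr, e2, map_add, map_add, Phi_sq_mul (phi_sq_mul _), Phi_sq_mul (phi_sq_mul _)]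
    ring
  obtain ⟨p, hp⟩ := key_dvd (phi_sq_mul ∅) (phi_one _) d (xx * yy * t) fun s => by
    have := dvd_sub (h1 s) (h2 s)
    rwa [gg_apply, add_sub_cancel_right, ← mul_assoc] at this
  obtain ⟨q, hq⟩ := key_dvd (phi_sq_mul (Lam ι)) (phi_one _) d ((xx + yy) ^ 2 * t) fun s => by
    rw [mul_assoc, Phi_sq_mul (phi_sq_mul _)]
    exact h2 s
  have h4 : (xx ^ 2 + yy ^ 2) * p = xx * yy * q := by
    apply mul_left_cancel₀ (pow_ne_zero 2 hd0)
    rw [add_pow_char] at hq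
    linear_combination (xx * yy) * hq - (xx ^ 2 + yy ^ 2) * hp
  obtain ⟨p1, rfl⟩ : xx ∣ p :=
    xx_dvd_of_yy_pow_mul (j := 2) ⟨yy * q - xx * p, by linear_combination h4⟩
  have h5 : xx ^ 2 * p1 = yy * (q - yy * p1) := by
    apply mul_left_cancel₀ xx_ne_zero
    linear_combination h4
  obtain ⟨p2, rfl⟩ : yy ∣ p1 := by
    rw [yy_dvd_iff]
    intro a
    have := yy_dvd_iff.1 ⟨_, h5⟩ (a + 2)
    rwa [co_xx_pow_mul, if_pos (by omega), Nat.add_sub_cancel] at this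
  have h6 : t = d ^ 2 * p2 := by
    apply mul_left_cancel₀ (mul_ne_zero xx_ne_zero yy_ne_zero)
    linear_combination hp
  have h7 := RR_pure hc {d ^ 2} (Set.finite_singleton _)
    (Set.singleton_subset_iff.2 (pow_mem hdR 2)) t htR
    (Ideal.mem_span_singleton.2 ⟨p2, h6⟩)
  obtain ⟨t', ht'⟩ := Submodule.mem_span_singleton.1 h7
  refine ⟨t', fun s => ?_⟩
  apply mul_left_cancel₀ hd0
  have h8 : t = d ^ 2 * t'.1 := by rw [← ht', mul_comm]; rfl
  rw [H s, ← gg_sq_mul]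
  simp only [h8, mul_assoc]

lemma level_all (e : ℕ) : ∀ (ψ : RR ι →+ RR ι), (∀ r s, ψ (r ^ (2 ^ e) * s) = r * ψ s) →
    ∀ s : RR ι, res s.1 = 0 → res (ψ s).1 = 0 := by
  induction e with
  | zero =>
    intro ψ hψ s hs
    have := hψ s 1
    rw [pow_zero, pow_one, mul_one] at this
    rw [this]
    simp [hs]
  | succ e ih =>
    intro ψ hψ
    have h1 : ∀ s : RR ι, ∃ t : RR ι, ∀ r : RR ι, (ψ (r ^ (2 ^ e) * s)).1 = gg (t.1 * r.1) := by
      intro s
      let χ : RR ι →+ RR ι :=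
        { toFun := fun r => ψ (r ^ (2 ^ e) * s)
          map_zero' := by simp
          map_add' := fun a b => by rw [add_pow_char_pow, add_mul, map_add] }
      exact level_one hc χ fun a b => by
        change ψ _ = a * ψ _
        rw [← hψ, mul_pow, ← pow_mul, mul_assoc, pow_succ']
    choose t ht using h1
    have huniq : ∀ a b : RR ι, (∀ r : RR ι, gg (a.1 * r.1) = gg (b.1 * r.1)) → a = b := by
      intro a b h
      have := h (a - b)
      rw [← sub_eq_zero, ← map_sub, ← sub_mul] at this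
      rw [← sub_eq_zero]
      exact Subtype.ext ((gg_mul_self _).symm.trans this)
    let τ : RR ι →+ RR ι := AddMonoidHom.mk' t fun a b => huniq _ _ fun r => by
      rw [← ht, mul_add, map_add, Subring.coe_add, ht, ht, ← map_add, Subring.coe_add, add_mul]
    intro s hs
    have h2 := ih τ (fun a b => huniq _ _ fun r => by
      change gg ((t _).1 * _) = gg ((a * t b).1 * _)
      rw [← ht, ← mul_assoc, ← mul_pow, ht]
      simp only [Subring.coe_mul]
      congr 1; ring) s hs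
    have h3 := ht s 1
    rw [one_pow, one_mul] at h3
    rw [h3]
    have h4 : res (t s).1 = 0 := h2
    exact res_gg (by simp [h4])

theorem main_aux : ∃ (_ : IsLocalRing (RR ι)) (_ : IsNoetherianRing (RR ι)),
    (∃ s : Finset (RR ι), Ideal.span (s : Set (RR ι)) = IsLocalRing.maximalIdeal (RR ι) ∧
      ((s.card : ℕ∞) : WithBot ℕ∞) = ringKrullDim (RR ι)) ∧
    (∃ φ : RR ι →+ RR ι, (∀ r x, φ (r ^ 2 * x) = r * φ x) ∧ φ 1 = 1) ∧
    ∃ c : RR ι, c ≠ 0 ∧ ∀ (e : ℕ) (ψ : RR ι →+ RR ι),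
      (∀ r x, ψ (r ^ (2 ^ e) * x) = r * ψ x) → ψ c ≠ 1 := by
  classical
  have hpre := RR_pre hc
  have hloc := hpre.isLocalRing
  have hN := (RR_pure hc).isNoetherianRing
  let x : RR ι := ⟨xx, hpre.hx⟩
  let y : RR ι := ⟨yy, hpre.hy⟩
  have hxy : ¬ (xx : TI ι) ∣ yy := by
    rw [xx_dvd_iff]; simp [yy, X_ne_zero]
  have hm : ∀ a : RR ι, a ∈ IsLocalRing.maximalIdeal (RR ι) ↔ res a.1 = 0 := fun a => by
    rw [IsLocalRing.mem_maximalIdeal, mem_nonunits_iff, hpre.isUnit_iff, not_not]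
  have hspan : Ideal.span (({x, y} : Finset (RR ι)) : Set (RR ι)) =
      IsLocalRing.maximalIdeal (RR ι) := by
    refine le_antisymm (Ideal.span_le.2 ?_) fun a ha => ?_
    · intro a ha
      simp only [Finset.coe_insert, Finset.coe_singleton, Set.mem_insert_iff,
        Set.mem_singleton_iff] at ha
      rcases ha with rfl | rfl
      · exact (hm _).2 res_xx
      · exact (hm _).2 res_yy
    · obtain ⟨p, hp, q, hq, e⟩ := hpre.dec a.1 a.2 ((hm a).1 ha)
      have : a = x * ⟨p, hp⟩ + y * ⟨q, hq⟩ := Subtype.ext e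
      rw [this]
      exact add_mem (Ideal.mul_mem_right _ _ (Ideal.subset_span (by simp)))
        (Ideal.mul_mem_right _ _ (Ideal.subset_span (by simp)))
  have hcard : ({x, y} : Finset (RR ι)).card = 2 := Finset.card_pair fun h => hxy (by
    rw [show (yy : TI ι) = xx from (congrArg Subtype.val h).symm])
  refine ⟨hloc, hN, ⟨{x, y}, hspan, ?_⟩, ⟨AddMonoidHom.mk' (fun r => ⟨gg r.1, RR_stab hc r.2⟩)
    fun a b => Subtype.ext (map_add gg a.1 b.1), fun r s => Subtype.ext (gg_sq_mul r.1 s.1),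
    Subtype.ext gg_one⟩, x, fun h => xx_ne_zero (congrArg Subtype.val h), fun e ψ hψ h => ?_⟩
  · rw [← IsLocalRing.maximalIdeal_height_eq_ringKrullDim]
    congr 1
    refine le_antisymm ?_ (Ideal.height_le_card_of_mem_minimalPrimes_span_finset (by
      rw [hspan, Ideal.minimalPrimes_eq_subsingleton_self]; rfl))
    let P : Ideal (RR ι) := RingHom.ker ((constantCoeff (R := PowerSeries _)).comp (RR ι).subtype)
    have : P.IsPrime := RingHom.ker_isPrime _
    have h1 : ⊥ < P := bot_lt_iff_ne_bot.2 fun h => by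
      have : x ∈ P := by simp [P, x, xx]
      rw [h] at this
      exact xx_ne_zero (congrArg Subtype.val this)
    have h2 : P < IsLocalRing.maximalIdeal (RR ι) :=
      lt_of_le_of_ne (IsLocalRing.le_maximalIdeal this.ne_top) fun h => by
        have : y ∈ P := by rw [h]; exact (hm _).2 res_yy
        exact hxy (xx_dvd_iff.2 this)
    have h3 := Ideal.height_add_one_le_of_lt_of_isPrime h1
    have h4 := Ideal.height_add_one_le_of_lt_of_isPrime h2
    rw [hcard]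
    calc ((2 : ℕ) : ℕ∞) = 0 + 1 + 1 := by norm_num
      _ ≤ (⊥ : Ideal (RR ι)).height + 1 + 1 := by gcongr; exact zero_le
      _ ≤ P.height + 1 := by gcongr
      _ ≤ _ := h4
  · have := level_all hc e ψ hψ x res_xx
    rw [h] at this
    simp at this

end final

theorem main : ∃ (R : Type) (_ : CommRing R) (_ : IsLocalRing R) (_ : IsNoetherianRing R)
    (_ : CharP R 2),
    (∃ s : Finset R, Ideal.span (s : Set R) = IsLocalRing.maximalIdeal R ∧
      ((s.card : ℕ∞) : WithBot ℕ∞) = ringKrullDim R) ∧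
    (∃ φ : R →+ R, (∀ r x, φ (r ^ 2 * x) = r * φ x) ∧ φ 1 = 1) ∧
    ∃ c : R, c ≠ 0 ∧ ∀ (e : ℕ) (ψ : R →+ R), (∀ r x, ψ (r ^ (2 ^ e) * x) = r * ψ x) → ψ c ≠ 1 := by
  let ι := (Cardinal.aleph 1 : Cardinal.{0}).ord.ToType
  have hc : ∀ a : ι, (Set.Iio a).Countable := fun a => by
    rw [← Cardinal.le_aleph0_iff_set_countable, ← Cardinal.lt_aleph_one_iff]
    simpa [ι] using Cardinal.mk_Iio_lt a
  have : Uncountable ι := by
    rw [← Cardinal.aleph0_lt_mk_iff, Cardinal.mk_ord_toType]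
    exact Cardinal.aleph0_lt_aleph_one
  obtain ⟨h1, h2, h3⟩ := main_aux hc
  exact ⟨RR ι, inferInstance, h1, h2, inferInstance, h3⟩

end

end Pool.Agent.H896Z.FS
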