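import Mathlib

namespace Pool.Agent.H896Z.FS

open PowerSeries

noncomputable section

section od

variable {S : Type} [CommRing S]

/-- odd part operator -/
def od (η : S →+ S) : S⟦X⟧ →+ S⟦X⟧ where
  toFun f := mk fun n => η (coeff (2 * n + 1) f)
  map_zero' := by ext; simp
  map_add' f g := by ext; simp

lemma coeff_od (η : S →+ S) (f : S⟦X⟧) (n : ℕ) : coeff n (od η f) = η (coeff (2 * n + 1) f) := by
  simp [od]

lemma eq_zero_of_X_pow_dvd {f : S⟦X⟧} (h : ∀ i, X ^ i ∣ f) : f = 0 := by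
  ext n
  exact (X_pow_dvd_iff.1 (h (n + 1))) n (by omega)

lemma exists_trunc (f : S⟦X⟧) (N : ℕ) :
    ∃ p, f = ∑ a ∈ Finset.range N, C (coeff a f) * X ^ a + X ^ N * p := by
  have : X ^ N ∣ f - ∑ a ∈ Finset.range N, C (coeff a f) * X ^ a := by
    rw [X_pow_dvd_iff]
    intro m hm
    simp [map_sum, coeff_X_pow, hm]
  obtain ⟨p, hp⟩ := this
  exact ⟨p, by rw [← hp]; ring⟩

lemma od_X_sq_mul (η : S →+ S) (f : S⟦X⟧) : od η (X ^ 2 * f) = X * od η f := by
  ext n
  rw [coeff_od, coeff_X_pow_mul']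
  cases n with
  | zero => simp
  | succ n =>
    rw [coeff_succ_X_mul, coeff_od, if_pos (by omega)]
    congr 2

lemma od_C (η : S →+ S) (c : S) : od η (C c) = 0 := by
  ext n
  simp [coeff_od]

lemma od_C_mul_X (η : S →+ S) (c : S) : od η (C c * X) = C (η c) := by
  ext n
  rw [coeff_od, coeff_succ_mul_X, coeff_C, coeff_C]
  by_cases h : n = 0
  · simp [h]
  · simp [h]

instance charP_ps [CharP S 2] : CharP S⟦X⟧ 2 := charP_of_injective_ringHom (C_injective) 2

lemma od_sq_mul [CharP S 2] (η : S →+ S) (hη : ∀ a b, η (a ^ 2 * b) = a * η b) (a f : S⟦X⟧) :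
    od η (a ^ 2 * f) = a * od η f := by
  let P : S⟦X⟧ → Prop := fun a => ∀ f, od η (a ^ 2 * f) = a * od η f
  have hC : ∀ c, P (C c) := by
    intro c f
    ext n
    rw [← map_pow, coeff_od, coeff_C_mul, coeff_C_mul, hη, coeff_od]
  have hX : P X := od_X_sq_mul η
  have hmul : ∀ a b, P a → P b → P (a * b) := by
    intro a b ha hb f
    rw [mul_pow, mul_assoc, ha, hb, mul_assoc]
  have hadd : ∀ a b, P a → P b → P (a + b) := by
    intro a b ha hb f
    rw [add_pow_char, add_mul, map_add, ha, hb, add_mul]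
  have hpow : ∀ n, P (X ^ n) := by
    intro n
    induction n with
    | zero => intro f; simp
    | succ n ih => rw [pow_succ]; exact hmul _ _ ih hX
  have hsum : ∀ N, P (∑ i ∈ Finset.range N, C (coeff i a) * X ^ i) := by
    intro N
    induction N with
    | zero => intro f; simp
    | succ n ih => rw [Finset.sum_range_succ]; exact hadd _ _ ih (hmul _ _ (hC _) (hpow _))
  rw [← sub_eq_zero]
  refine eq_zero_of_X_pow_dvd fun N => ?_
  obtain ⟨p, hp⟩ := exists_trunc a N
  refine ⟨od η (p ^ 2 * f) - p * od η f, ?_⟩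
  rw [hp, add_pow_char, add_mul, map_add, hsum N, mul_pow, mul_assoc, hpow N]
  ring

end od

variable {k : Type} [Field k]

/-- power series in two variables -/
abbrev TT (k : Type) [Field k] := PowerSeries (PowerSeries k)

/-- first variable -/
def xx : TT k := X
/-- second variable -/
def yy : TT k := C X
/-- constants -/
def cc : k →+* TT k := (C (R := k⟦X⟧)).comp C
/-- residue map -/
def res : TT k →+* k := (constantCoeff (R := k)).comp constantCoeff
/-- coefficients -/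
def co (a b : ℕ) : TT k →+ k := (coeff (R := k) b).toAddMonoidHom.comp (coeff a).toAddMonoidHom

lemma co_apply (a b : ℕ) (t : TT k) : co a b t = coeff b (coeff a t) := rfl

lemma co_ext {s t : TT k} (h : ∀ a b, co a b s = co a b t) : s = t := by
  ext a b; exact h a b

lemma res_eq_co (t : TT k) : res t = co 0 0 t := by simp [res, co_apply]

@[simp] lemma res_xx : res (xx : TT k) = 0 := by simp [res, xx]
@[simp] lemma res_yy : res (yy : TT k) = 0 := by simp [res, yy]
@[simp] lemma res_cc (c : k) : res (cc c) = c := by simp [res, cc]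

lemma xx_ne_zero : (xx : TT k) ≠ 0 := X_ne_zero
lemma yy_ne_zero : (yy : TT k) ≠ 0 := fun h => X_ne_zero (R := k) (C_injective (by simpa [yy] using h))

lemma isUnit_iff_res {t : TT k} : IsUnit t ↔ res t ≠ 0 := by
  rw [isUnit_iff_constantCoeff, isUnit_iff_constantCoeff, isUnit_iff_ne_zero]; rfl

lemma co_mul_cc (a b : ℕ) (t : TT k) (c : k) : co a b (t * cc c) = co a b t * c := by
  simp [co_apply, cc]

lemma co_xx_pow_mul (a b n : ℕ) (t : TT k) :
    co a b (xx ^ n * t) = if n ≤ a then co (a - n) b t else 0 := by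
  rw [co_apply, xx, coeff_X_pow_mul']
  split_ifs
  · rfl
  · simp

lemma xx_dvd_iff {t : TT k} : xx ∣ t ↔ constantCoeff t = 0 := X_dvd_iff

lemma dec_T {t : TT k} (h : res t = 0) : ∃ p q, t = xx * p + yy * q := by
  have h1 : (X : k⟦X⟧) ∣ constantCoeff t := X_dvd_iff.2 h
  obtain ⟨q, hq⟩ := h1
  have h2 : xx ∣ t - yy * C q := by
    rw [xx_dvd_iff]; simp [yy, hq]
  obtain ⟨p, hp⟩ := h2
  exact ⟨p, C q, by rw [← hp]; ring⟩

lemma xx_dvd_of_yy_pow_mul {j : ℕ} {t : TT k} (h : xx ∣ yy ^ j * t) : xx ∣ t := by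
  rw [xx_dvd_iff] at h ⊢
  simpa [yy, X_ne_zero] using h

lemma yy_dvd_iff {t : TT k} : yy ∣ t ↔ ∀ a, co a 0 t = 0 := by
  constructor
  · rintro ⟨q, rfl⟩ a
    simp [co_apply, yy]
  · intro h
    have : ∀ a, ∃ q, coeff a t = X * q := fun a => X_dvd_iff.2 (by simpa [co_apply] using h a)
    choose q hq using this
    exact ⟨mk q, by ext a; simp [yy, hq]⟩

lemma xx_pow_dvd_of_forall {i : ℕ} {h : TT k} (H : ∀ j, ∃ p q, h = xx ^ i * p + yy ^ j * q) :
    xx ^ i ∣ h := by
  rw [xx, X_pow_dvd_iff]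
  intro m hm
  refine eq_zero_of_X_pow_dvd fun j => ?_
  obtain ⟨p, q, rfl⟩ := H j
  rw [map_add, xx, coeff_X_pow_mul', if_neg (by omega), zero_add, yy, ← map_pow, coeff_C_mul]
  exact dvd_mul_right _ _

lemma krull {R : Type} [CommRing R] [IsNoetherianRing R] [IsLocalRing R] (J : Ideal R) (x y : R)
    (hx : ¬ IsUnit x) (hy : ¬ IsUnit y) (b : R)
    (h : ∀ n, ∃ j ∈ J, ∃ p q, b = j + x ^ n * p + y ^ n * q) : b ∈ J := by
  have h1 := Ideal.iInf_pow_smul_eq_bot_of_isLocalRing (M := R ⧸ J) (IsLocalRing.maximalIdeal R)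
    (IsLocalRing.maximalIdeal.isMaximal R).ne_top
  rw [← Ideal.Quotient.eq_zero_iff_mem, ← Submodule.mem_bot R, ← h1, Submodule.mem_iInf]
  intro n
  obtain ⟨j, hj, p, q, rfl⟩ := h n
  have e : Ideal.Quotient.mk J (j + x ^ n * p + y ^ n * q) =
      x ^ n • Ideal.Quotient.mk J p + y ^ n • Ideal.Quotient.mk J q := by
    rw [map_add, map_add, Ideal.Quotient.eq_zero_iff_mem.2 hj, zero_add]
    rfl
  rw [e]
  exact add_mem (Submodule.smul_mem_smul (Ideal.pow_mem_pow hx n) trivial)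
    (Submodule.smul_mem_smul (Ideal.pow_mem_pow hy n) trivial)

lemma dvd_of_approx {b t : TT k} (h : ∀ n, ∃ r p q, t = b * r + xx ^ n * p + yy ^ n * q) :
    b ∣ t := by
  rw [← Ideal.mem_span_singleton]
  refine krull _ xx yy (by simp [isUnit_iff_res]) (by simp [isUnit_iff_res]) t fun n => ?_
  obtain ⟨r, p, q, h⟩ := h n
  exact ⟨b * r, Ideal.mul_mem_right _ _ (Ideal.mem_span_singleton_self b), p, q, h⟩

/-- series with coefficients in a subfield -/
def TF (F : Subfield k) : Subring (TT k) :=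
  (PowerSeries.map (PowerSeries.map F.subtype)).range

lemma mem_TF {F : Subfield k} {t : TT k} : t ∈ TF F ↔ ∀ a b, co a b t ∈ F := by
  constructor
  · rintro ⟨s, rfl⟩ a b
    simp [co_apply]
  · intro h
    refine ⟨mk fun a => mk fun b => ⟨co a b t, h a b⟩, ?_⟩
    ext a b
    simp [co_apply]

lemma TF_mono {F G : Subfield k} (h : F ≤ G) : TF F ≤ TF G :=
  fun _ ht => mem_TF.2 fun a b => h (mem_TF.1 ht a b)

lemma xx_mem_TF (F : Subfield k) : xx ∈ TF F := ⟨X, by simp [xx]⟩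
lemma yy_mem_TF (F : Subfield k) : yy ∈ TF F := ⟨C X, by simp [yy]⟩
lemma cc_mem_TF {F : Subfield k} {c : k} (h : c ∈ F) : cc c ∈ TF F :=
  ⟨C (C ⟨c, h⟩), by simp [cc]⟩

lemma res_mem_of_TF {F : Subfield k} {t : TT k} (h : t ∈ TF F) : res t ∈ F := by
  rw [res_eq_co]; exact mem_TF.1 h 0 0

lemma TF_inv (F : Subfield k) (t q : TT k) (hq : q ∈ TF F) (hu : IsUnit q) (h : t * q ∈ TF F) :
    t ∈ TF F := by
  obtain ⟨q', rfl⟩ := hq
  have h1 : IsUnit q' := by
    rw [isUnit_iff_constantCoeff, isUnit_iff_constantCoeff, isUnit_iff_ne_zero]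
    intro h0
    apply isUnit_iff_res.1 hu
    have : res (PowerSeries.map (PowerSeries.map F.subtype) q') =
        F.subtype (constantCoeff (constantCoeff q')) := by
      rw [res_eq_co, co_apply]
      simp
    rw [this, h0, map_zero]
  obtain ⟨r, hr⟩ := h1.exists_right_inv
  have : t = t * PowerSeries.map (PowerSeries.map F.subtype) q' *
      PowerSeries.map (PowerSeries.map F.subtype) r := by
    rw [mul_assoc, ← map_mul, hr, map_one, mul_one]
  rw [this]
  exact mul_mem h ⟨r, rfl⟩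

/-- polynomials in `x, y` with coefficients in a set -/
def PolyD (D : Set k) : AddSubgroup (TT k) :=
  AddSubgroup.closure {t | ∃ γ ∈ D, ∃ a b : ℕ, t = cc γ * xx ^ a * yy ^ b}

lemma exists_trunc2 (h : TT k) (N : ℕ) : ∃ D : Finset k, ∃ h' ∈ PolyD (D : Set k), ∃ p q,
    h = h' + xx ^ N * p + yy ^ N * q := by
  classical
  obtain ⟨p, hp⟩ := exists_trunc h N
  have h1 := fun a => exists_trunc (coeff a h) N
  choose q hq using h1
  refine ⟨(Finset.range N ×ˢ Finset.range N).image fun z => co z.1 z.2 h,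
    ∑ a ∈ Finset.range N, ∑ b ∈ Finset.range N, cc (co a b h) * xx ^ a * yy ^ b, ?_, p,
    ∑ a ∈ Finset.range N, C (q a) * xx ^ a, ?_⟩
  · refine sum_mem fun a ha => sum_mem fun b hb => AddSubgroup.subset_closure
      ⟨_, ?_, a, b, rfl⟩
    exact Finset.mem_coe.2 (Finset.mem_image.2 ⟨(a, b), Finset.mem_product.2 ⟨ha, hb⟩, rfl⟩)
  · have e : ∀ a, C (coeff a h) * X ^ a = ∑ b ∈ Finset.range N, cc (co a b h) * xx ^ a * yy ^ b +
        yy ^ N * (C (q a) * xx ^ a) := by
      intro a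
      conv_lhs => rw [hq a]
      simp only [map_add, map_sum, map_mul, map_pow, add_mul, Finset.sum_mul]
      have e2 : ∀ b, (C (C (coeff b (coeff a h))) : TT k) * C X ^ b * X ^ a =
          cc (co a b h) * xx ^ a * yy ^ b := by
        intro b
        simp only [cc, xx, yy, co_apply, RingHom.comp_apply]
        ring
      simp only [e2]
      simp only [xx, yy]
      ring
    rw [add_right_comm, Finset.mul_sum, ← Finset.sum_add_distrib, ← Finset.sum_congr rfl
      fun a _ => e a]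
    exact hp

section Phi

variable [CharP k 2]

/-- extension of a `2⁻¹`-linear map of the field to the power series -/
def Phi (η : k →+ k) : TT k →+ TT k := od (od η)

omit [CharP k 2] in
lemma co_Phi (η : k →+ k) (a b : ℕ) (t : TT k) :
    co a b (Phi η t) = η (co (2 * a + 1) (2 * b + 1) t) := by
  simp [co_apply, Phi, coeff_od]

lemma Phi_sq_mul {η : k →+ k} (hη : ∀ a b, η (a ^ 2 * b) = a * η b) (a f : TT k) :
    Phi η (a ^ 2 * f) = a * Phi η f := od_sq_mul _ (od_sq_mul η hη) a f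

omit [CharP k 2] in
lemma Phi_cc (η : k →+ k) (c : k) : Phi η (cc c) = 0 := od_C _ _

omit [CharP k 2] in
lemma Phi_cc_y (η : k →+ k) (c : k) : Phi η (cc c * yy) = 0 := by
  rw [cc, yy, RingHom.comp_apply, ← map_mul]; exact od_C _ _

omit [CharP k 2] in
lemma Phi_cc_x (η : k →+ k) (c : k) : Phi η (cc c * xx) = 0 := by
  rw [cc, xx, RingHom.comp_apply, Phi, od_C_mul_X, od_C, map_zero]

omit [CharP k 2] in
lemma Phi_cc_xy (η : k →+ k) (c : k) : Phi η (cc c * xx * yy) = cc (η c) := by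
  rw [mul_right_comm, cc, xx, yy, RingHom.comp_apply, ← map_mul, Phi, od_C_mul_X, od_C_mul_X]
  rfl

omit [CharP k 2] in
lemma exists_dual {η : k →+ k} (hη : ∀ a b, η (a ^ 2 * b) = a * η b) (h1 : η 1 = 1)
    (D : Finset k) : ∃ s : Finset (k × k),
      (∀ p ∈ s, η (p.1 * p.2) = 1) ∧ (∀ p ∈ s, ∀ q ∈ s, p ≠ q → η (p.1 * q.2) = 0) ∧
      ∀ h ∈ D, h = ∑ p ∈ s, η (h * p.2) ^ 2 * p.1 := by
  classical
  induction D using Finset.induction_on with
  | empty => exact ⟨∅, by simp, by simp, by simp⟩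
  | insert h D _ ih =>
    obtain ⟨s, s1, s2, s3⟩ := ih
    have e1 : ∀ (c : k × k → k), ∀ q ∈ s, η ((∑ p ∈ s, c p ^ 2 * p.1) * q.2) = c q := by
      intro c q hq
      rw [Finset.sum_mul, map_sum, Finset.sum_eq_single q]
      · rw [mul_assoc, hη, s1 q hq, mul_one]
      · intro p hp hpq
        rw [mul_assoc, hη, s2 p hp q hq hpq, mul_zero]
      · intro h; exact absurd hq h
    have e2 : ∀ (c : k × k → k), ∀ q ∈ s, η (q.1 * ∑ p ∈ s, c p ^ 2 * p.2) = c q := by
      intro c q hq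
      rw [Finset.mul_sum, map_sum, Finset.sum_eq_single q]
      · rw [mul_left_comm, hη, s1 q hq, mul_one]
      · intro p hp hpq
        rw [mul_left_comm, hη, s2 q hq p hp (Ne.symm hpq), mul_zero]
      · intro h; exact absurd hq h
    set h' := h - ∑ p ∈ s, η (h * p.2) ^ 2 * p.1 with hh'
    by_cases h0 : h' = 0
    · refine ⟨s, s1, s2, fun z hz => ?_⟩
      rcases Finset.mem_insert.1 hz with rfl | hz
      · exact sub_eq_zero.1 h0
      · exact s3 z hz
    · have f1 : ∀ q ∈ s, η (h' * q.2) = 0 := by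
        intro q hq
        rw [hh', sub_mul, map_sub, e1 _ q hq, sub_self]
      set σ' := h'⁻¹ - ∑ p ∈ s, η (p.1 * h'⁻¹) ^ 2 * p.2 with hσ
      have f2 : ∀ q ∈ s, η (q.1 * σ') = 0 := by
        intro q hq
        rw [hσ, mul_sub, map_sub, e2 (fun p => η (p.1 * h'⁻¹)) q hq, sub_self]
      have f3 : η (h' * σ') = 1 := by
        rw [hσ, mul_sub, map_sub, mul_inv_cancel₀ h0, h1, Finset.mul_sum, map_sum,
          Finset.sum_eq_zero, sub_zero]
        intro p hp
        rw [mul_left_comm, hη, f1 p hp, mul_zero]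
      have f4 : (h', σ') ∉ s := fun hm => by
        have := f1 _ hm
        rw [f3] at this
        exact one_ne_zero this
      have f5 : ∀ c : k × k → k, η ((∑ p ∈ s, c p ^ 2 * p.1) * σ') = 0 := by
        intro c
        rw [Finset.sum_mul, map_sum, Finset.sum_eq_zero]
        intro p hp
        rw [mul_assoc, hη, f2 p hp, mul_zero]
      refine ⟨insert (h', σ') s, ?_, ?_, ?_⟩
      · intro p hp
        rcases Finset.mem_insert.1 hp with rfl | hp
        · exact f3
        · exact s1 p hp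
      · intro p hp q hq hpq
        rcases Finset.mem_insert.1 hp with rfl | hp <;> rcases Finset.mem_insert.1 hq with rfl | hq
        · exact absurd rfl hpq
        · exact f1 q hq
        · exact f2 p hp
        · exact s2 p hp q hq hpq
      · intro z hz
        rw [Finset.sum_insert f4]
        rcases Finset.mem_insert.1 hz with rfl | hz
        · have : η (z * σ') = 1 := by
            have e : z = h' + ∑ p ∈ s, η (z * p.2) ^ 2 * p.1 := by rw [hh']; ring
            rw [e, add_mul, map_add, f3, f5, add_zero]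
          simp only [this]
          rw [hh']; ring
        · have : η (z * σ') = 0 := by
            rw [s3 z hz]; exact f5 _
          simp only [this]
          rw [← s3 z hz]; ring

lemma key_dvd {η : k →+ k} (hη : ∀ a b, η (a ^ 2 * b) = a * η b) (h1 : η 1 = 1) (b h : TT k)
    (H : ∀ s, b ∣ Phi η (h * s)) : b ^ 2 ∣ h := by
  refine dvd_of_approx fun N => ?_
  obtain ⟨D, h', hh', p, q, e⟩ := exists_trunc2 h (2 * N)
  obtain ⟨s, -, -, s3⟩ := exists_dual hη h1 D
  let Ex : TT k → TT k := fun t => ∑ z ∈ s, (Phi η (t * (cc z.2 * xx * yy)) ^ 2 * cc z.1 +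
    Phi η (t * (cc z.2 * yy)) ^ 2 * (cc z.1 * xx) + Phi η (t * (cc z.2 * xx)) ^ 2 * (cc z.1 * yy) +
    Phi η (t * cc z.2) ^ 2 * (cc z.1 * xx * yy))
  have Eadd : ∀ t u, Ex (t + u) = Ex t + Ex u := by
    intro t u
    simp only [Ex, add_mul, map_add, add_pow_char, ← Finset.sum_add_distrib]
    exact Finset.sum_congr rfl fun z _ => by ring
  have Esq : ∀ r t, Ex (r ^ 2 * t) = r ^ 2 * Ex t := by
    intro r t
    simp only [Ex, mul_assoc (r ^ 2), Phi_sq_mul hη, Finset.mul_sum]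
    exact Finset.sum_congr rfl fun z _ => by ring
  have E0 : Ex 0 = 0 := by simp [Ex]
  have hγ : ∀ γ ∈ D, cc γ = ∑ z ∈ s, (cc (η (γ * z.2)) : TT k) ^ 2 * cc z.1 := by
    intro γ hγ
    conv_lhs => rw [s3 γ hγ]
    simp
  have Eb : ∀ γ ∈ D, Ex (cc γ) = cc γ ∧ Ex (cc γ * xx) = cc γ * xx ∧ Ex (cc γ * yy) = cc γ * yy ∧
      Ex (cc γ * xx * yy) = cc γ * xx * yy := by
    intro γ hγD
    have a1 : ∀ c : k, Phi η (cc γ * (cc c * xx * yy)) = cc (η (γ * c)) := fun c => by
      rw [← Phi_cc_xy, map_mul cc]; congr 1; ring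
    have a2 : ∀ c : k, Phi η (cc γ * (cc c * yy)) = 0 := fun c => by
      rw [← Phi_cc_y η (γ * c), map_mul cc]; congr 1; ring
    have a3 : ∀ c : k, Phi η (cc γ * (cc c * xx)) = 0 := fun c => by
      rw [← Phi_cc_x η (γ * c), map_mul cc]; congr 1; ring
    have a4 : ∀ c : k, Phi η (cc γ * cc c) = 0 := fun c => by
      rw [← Phi_cc η (γ * c), map_mul cc]
    refine ⟨?_, ?_, ?_, ?_⟩
    · conv_rhs => rw [hγ γ hγD]
      refine Finset.sum_congr rfl fun z _ => ?_
      rw [a1, a2, a3, a4]; ring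
    · conv_rhs => rw [hγ γ hγD, Finset.sum_mul]
      refine Finset.sum_congr rfl fun z _ => ?_
      rw [show cc γ * xx * (cc z.2 * xx * yy) = xx ^ 2 * (cc γ * (cc z.2 * yy)) by ring,
        show cc γ * xx * (cc z.2 * yy) = cc γ * (cc z.2 * xx * yy) by ring,
        show cc γ * xx * (cc z.2 * xx) = xx ^ 2 * (cc γ * cc z.2) by ring,
        show cc γ * xx * cc z.2 = cc γ * (cc z.2 * xx) by ring,
        Phi_sq_mul hη, Phi_sq_mul hη, a1, a2, a3, a4]
      ring
    · conv_rhs => rw [hγ γ hγD, Finset.sum_mul]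
      refine Finset.sum_congr rfl fun z _ => ?_
      rw [show cc γ * yy * (cc z.2 * xx * yy) = yy ^ 2 * (cc γ * (cc z.2 * xx)) by ring,
        show cc γ * yy * (cc z.2 * yy) = yy ^ 2 * (cc γ * cc z.2) by ring,
        show cc γ * yy * (cc z.2 * xx) = cc γ * (cc z.2 * xx * yy) by ring,
        show cc γ * yy * cc z.2 = cc γ * (cc z.2 * yy) by ring,
        Phi_sq_mul hη, Phi_sq_mul hη, a1, a2, a3, a4]
      ring
    · conv_rhs => rw [hγ γ hγD, Finset.sum_mul, Finset.sum_mul]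
      refine Finset.sum_congr rfl fun z _ => ?_
      rw [show cc γ * xx * yy * (cc z.2 * xx * yy) = (xx * yy) ^ 2 * (cc γ * cc z.2) by ring,
        show cc γ * xx * yy * (cc z.2 * yy) = yy ^ 2 * (cc γ * (cc z.2 * xx)) by ring,
        show cc γ * xx * yy * (cc z.2 * xx) = xx ^ 2 * (cc γ * (cc z.2 * yy)) by ring,
        show cc γ * xx * yy * cc z.2 = cc γ * (cc z.2 * xx * yy) by ring,
        Phi_sq_mul hη, Phi_sq_mul hη, Phi_sq_mul hη, a1, a2, a3, a4]
      ring
  have Eh'' : ∀ t ∈ PolyD (D : Set k), Ex t = t := by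
    intro t ht
    induction ht using AddSubgroup.closure_induction with
    | zero => exact E0
    | add u v _ _ hu hv => rw [Eadd, hu, hv]
    | neg u _ hu => rw [CharTwo.neg_eq, hu]
    | mem u hu =>
      obtain ⟨γ, hγD, a, c, rfl⟩ := hu
      obtain ⟨e1, e2, e3, e4⟩ := Eb γ hγD
      obtain ⟨a, rfl | rfl⟩ := Nat.even_or_odd' a <;>
        obtain ⟨c, rfl | rfl⟩ := Nat.even_or_odd' c
      · rw [show cc γ * xx ^ (2 * a) * yy ^ (2 * c) = (xx ^ a * yy ^ c) ^ 2 * cc γ by ring,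
          Esq, e1]
      · rw [show cc γ * xx ^ (2 * a) * yy ^ (2 * c + 1) =
          (xx ^ a * yy ^ c) ^ 2 * (cc γ * yy) by ring, Esq, e3]
      · rw [show cc γ * xx ^ (2 * a + 1) * yy ^ (2 * c) =
          (xx ^ a * yy ^ c) ^ 2 * (cc γ * xx) by ring, Esq, e2]
      · rw [show cc γ * xx ^ (2 * a + 1) * yy ^ (2 * c + 1) =
          (xx ^ a * yy ^ c) ^ 2 * (cc γ * xx * yy) by ring, Esq, e4]
  have Eh' : Ex h' = h' := Eh'' h' hh'
  have Ed : b ^ 2 ∣ Ex h := by
    refine Finset.dvd_sum fun z _ => ?_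
    refine dvd_add (dvd_add (dvd_add ?_ ?_) ?_) ?_ <;>
      exact Dvd.dvd.mul_right (pow_dvd_pow_of_dvd (H _) 2) _
  obtain ⟨r, hr⟩ := Ed
  refine ⟨r, xx ^ N * (p - Ex p), yy ^ N * (q - Ex q), ?_⟩
  have e2 : Ex h = h' + (xx ^ N) ^ 2 * Ex p + (yy ^ N) ^ 2 * Ex q := by
    rw [e, Eadd, Eadd, Eh', mul_comm 2 N, pow_mul, pow_mul, Esq, Esq]
  rw [← hr, e2, e]
  ring

end Phi

end

end Pool.Agent.H896Z.FS
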