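import Pool.Agent.H896Z.FS.Field
import Pool.Agent.H896Z.FS.Good
import Pool.Agent.H896Z.FS.Mackey

namespace Pool.Agent.H896Z.FS

open PowerSeries Filter

noncomputable section

/-- the variables -/
abbrev Vars (ι : Type) := ℕ ⊕ (ι × ℕ)

variable {ι : Type}

/-- the ambient ring -/
abbrev TI (ι : Type) := TT (KK (Vars ι))

/-- the distinguished variables -/
def Lam (ι : Type) : Set (Vars ι) := Set.range Sum.inl

/-- the splitting -/
def gg : TI ι →+ TI ι where
  toFun t := Phi (phi ∅) (xx * yy * t) + (xx + yy) * Phi (phi (Lam ι)) t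
  map_zero' := by simp
  map_add' a b := by simp only [mul_add, map_add]; ring

lemma gg_apply (t : TI ι) :
    gg t = Phi (phi ∅) (xx * yy * t) + (xx + yy) * Phi (phi (Lam ι)) t := rfl

lemma gg_sq_mul (a t : TI ι) : gg (a ^ 2 * t) = a * gg t := by
  rw [gg_apply, gg_apply, mul_left_comm, Phi_sq_mul (phi_sq_mul _), Phi_sq_mul (phi_sq_mul _)]
  ring

lemma gg_one : gg (1 : TI ι) = 1 := by
  have h1 := Phi_cc_xy (phi (∅ : Set (Vars ι))) 1
  have h2 := Phi_cc (phi (Lam ι)) 1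
  rw [map_one] at h2
  rw [map_one, one_mul, phi_one, map_one] at h1
  rw [gg_apply, mul_one, h1, h2, mul_zero, add_zero]

lemma gg_mul_self (t : TI ι) : gg (t * t) = t := by
  rw [← pow_two, ← mul_one (t ^ 2), gg_sq_mul, gg_one, mul_one]

open Classical in
lemma Phi_mul_vr (Θ : Set (Vars ι)) (i : Vars ι) {t : TI ι} (ht : t ∈ TF (kZ ({i}ᶜ : Set _))) :
    Phi (phi Θ) (t * cc (vr i)) = if i ∈ Θ then Phi (phi Θ) t else 0 := by
  refine co_ext fun a b => ?_
  rw [co_Phi, co_mul_cc, phi_mul_vr _ _ (mem_TF.1 ht _ _)]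
  split_ifs
  · rw [co_Phi]
  · simp

lemma gg_mul_vr {i : Vars ι} (hi : i ∉ Lam ι) {t : TI ι} (ht : t ∈ TF (kZ ({i}ᶜ : Set _))) :
    gg (t * cc (vr i)) = 0 := by
  rw [gg_apply, ← mul_assoc, Phi_mul_vr _ _ ht,
    Phi_mul_vr _ _ (mul_mem (mul_mem (xx_mem_TF _) (yy_mem_TF _)) ht)]
  simp [hi]

lemma gg_mul_lam {i : Vars ι} (hi : i ∈ Lam ι) {t : TI ι} (ht : t ∈ TF (kZ ({i}ᶜ : Set _))) :
    gg (t * cc (vr i)) = (xx + yy) * Phi (phi (Lam ι)) t := by
  rw [gg_apply, ← mul_assoc, Phi_mul_vr _ _ ht,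
    Phi_mul_vr _ _ (mul_mem (mul_mem (xx_mem_TF _) (yy_mem_TF _)) ht)]
  simp [hi]

lemma res_gg {t : TI ι} (h : res t = 0) : res (gg t) = 0 := by
  obtain ⟨p, q, rfl⟩ := dec_T h
  rw [gg_apply, show xx * yy * (xx * p + yy * q) = xx ^ 2 * (yy * p) + yy ^ 2 * (xx * q) by ring,
    map_add (Phi _), Phi_sq_mul (phi_sq_mul _), Phi_sq_mul (phi_sq_mul _)]
  simp

/-- the invariants of a stage -/
structure Inv (Z : Set (Vars ι)) (A : Subring (TI ι)) : Prop where
  pre : PreGood A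
  pure : Pure A
  cnt : (A : Set (TI ι)).Countable
  stab : ∀ a ∈ A, gg a ∈ A
  sub : A ≤ TF (kZ Z)
  lam : ∀ n, cc (vr (Sum.inl n)) ∈ A

/-- Frobenius pushforward -/
def Fr (A : Type) := A

instance (A : Type) [CommRing A] : AddCommGroup (Fr A) := inferInstanceAs (AddCommGroup A)

instance (A : Type) [CommRing A] [CharP A 2] : Module A (Fr A) :=
  Module.compHom A (frobenius A 2)

lemma Fr_smul {A : Type} [CommRing A] [CharP A 2] (a : A) (v : Fr A) :
    a • v = (a ^ 2 * (show A from v) : A) := rfl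

lemma exists_tests {Z : Set (Vars ι)} {A : Subring (TI ι)} (hA : Inv Z A) :
    ∃ c κ : ℕ → A, (∀ n, res (κ n : TI ι) ≠ 0) ∧
      (∀ a ∈ A, ∀ᶠ n in atTop, gg (a * (c n).1) = 0 ∧ gg (a * (κ n).1) = 0) ∧
      ∀ ψ : A →+ A, (∀ r s, ψ (r ^ 2 * s) = r * ψ s) → (∀ᶠ n in atTop, ψ (c n) = 0) →
        ∃ d : A, d ≠ 0 ∧ ∃ t : A, ∀ s : A, d.1 * (ψ s).1 = gg (t.1 * s.1) := by
  have := hA.pure.isNoetherianRing
  have : Countable A := hA.cnt.to_subtype
  obtain ⟨s, hs⟩ := exists_surjective_nat A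
  let G : A → A → A := fun a b => ⟨gg (a.1 * b.1), hA.stab _ (mul_mem a.2 b.2)⟩
  let B : Fr A →ₗ[A] Fr A →ₗ[A] A := LinearMap.mk₂ A G
    (fun a b c => Subtype.ext (by
      change gg (((show A from a : A) + (show A from b : A) : A).1 * (show A from c : A).1) = _ + _
      simp only [G, Subring.coe_add, add_mul, map_add]))
    (fun r a b => Subtype.ext (by
      simp only [G, Fr_smul, smul_eq_mul, Subring.coe_mul, SubmonoidClass.coe_pow, mul_assoc,
        gg_sq_mul]))
    (fun a b c => Subtype.ext (by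
      change gg ((show A from a : A).1 * ((show A from b : A) + (show A from c : A) : A).1) = _ + _
      simp only [G, Subring.coe_add, mul_add, map_add]))
    (fun r a b => Subtype.ext (by
      simp only [G, Fr_smul, smul_eq_mul, Subring.coe_mul, SubmonoidClass.coe_pow]
      rw [mul_left_comm, gg_sq_mul]))
  have hB : ∀ a b : A, (B a b).1 = gg (a.1 * b.1) := fun _ _ => rfl
  obtain ⟨c, hc1, hc2⟩ := mackey B (fun t ht => Subtype.ext (by
    have := congrArg Subtype.val (ht t)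
    rwa [hB, gg_mul_self] at this)) s hs
  have hκ : ∀ n, ∃ κ : A, res (κ : TI ι) ≠ 0 ∧ ∀ i < n, gg ((s i).1 * κ.1) = 0 := by
    intro n
    let w : Fr A →ₗ[A] (Fin n → A) := LinearMap.pi fun i => B (s i)
    let lam : ℕ → Fr A := fun r => (⟨_, hA.lam r⟩ : A)
    let W : ℕ →o Submodule A (Fin n → A) :=
      ⟨fun m => (Submodule.span A (lam '' Set.Iio m)).map w, fun a b h =>
        Submodule.map_mono (Submodule.span_mono (Set.image_mono (Set.Iio_subset_Iio h)))⟩
    obtain ⟨m, hm⟩ := monotone_stabilizes_iff_noetherian.2 inferInstance W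
    have h1 : w (lam m) ∈ W m := by
      rw [hm (m + 1) (Nat.le_succ m)]
      exact ⟨lam m, Submodule.subset_span ⟨m, Nat.lt_succ_self m, rfl⟩, rfl⟩
    obtain ⟨z, hz, hwz⟩ := h1
    have h2 : phi ∅ (res ((show A from z : A) : TI ι) * vr (Sum.inl m)) = 0 := by
      clear hwz
      induction hz using Submodule.span_induction with
      | mem z hz =>
        obtain ⟨r, hr, rfl⟩ := hz
        change phi ∅ (res (cc _) * _) = 0
        rw [res_cc, phi_mul_vr _ _ (vr_mem (by simpa using (ne_of_lt hr)))]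
        simp
      | zero => change phi ∅ (res 0 * _) = 0; simp
      | add a b _ _ ha hb =>
        change phi ∅ (res ((show A from a : A).1 + (show A from b : A).1) * _) = 0
        rw [map_add, add_mul, map_add, ha, hb, add_zero]
      | smul r a _ ha =>
        change phi ∅ (res (r.1 ^ 2 * (show A from a : A).1) * _) = 0
        rw [map_mul res, map_pow res, mul_assoc, phi_sq_mul, ha, mul_zero]
    refine ⟨(show A from lam m) - (show A from z), fun h0 => ?_, fun i hi => ?_⟩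
    · change res (cc _ - _) = 0 at h0
      rw [map_sub, res_cc, sub_eq_zero] at h0
      rw [← h0, ← pow_two, ← mul_one (_ ^ 2), phi_sq_mul, phi_one, mul_one] at h2
      exact vr_ne_zero _ h2
    · have h3 : w (lam m - z) = 0 := by rw [map_sub, hwz, sub_self]
      exact congrArg Subtype.val (congrFun h3 ⟨i, hi⟩)
  choose κ hκ1 hκ2 using hκ
  refine ⟨c, κ, hκ1, fun a ha => ?_, fun ψ hψ h0 => ?_⟩
  · refine ((hc1 (⟨a, ha⟩ : A)).mono fun n hn => congrArg Subtype.val hn).and ?_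
    obtain ⟨i, hi⟩ := hs ⟨a, ha⟩
    filter_upwards [eventually_gt_atTop i] with n hn
    have := hκ2 n i hn
    rwa [hi] at this
  · obtain ⟨d, hd, t, ht⟩ := hc2 ⟨⟨ψ, ψ.map_add⟩, fun r v => hψ r v⟩ h0
    exact ⟨d, hd, t, fun s => congrArg Subtype.val (ht s)⟩

/-- coefficients of the lacunary sum -/
def ucoef (e : ℕ → TI ι) : ℕ → ℕ → PowerSeries (KK (Vars ι))
  | 0, N => coeff 0 (e N)
  | 1, N => coeff 1 (e N)
  | a + 2, N => coeff (a + 2) (e N) + ucoef e a (N + 1)

/-- the tails of the sum of `x ^ (2 l) * e l` -/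
def UU (e : ℕ → TI ι) (N : ℕ) : TI ι := mk fun a => ucoef e a N

lemma UU_eq (e : ℕ → TI ι) (N : ℕ) : UU e N = e N + xx ^ 2 * UU e (N + 1) := by
  refine PowerSeries.ext fun a => ?_
  rw [map_add, xx, coeff_X_pow_mul']
  match a with
  | 0 => simp [UU, ucoef]
  | 1 => simp [UU, ucoef]
  | a + 2 => simp [UU, ucoef]

lemma UU_mem_TF {F : Subfield (KK (Vars ι))} {e : ℕ → TI ι} (h : ∀ l, e l ∈ TF F) (N : ℕ) :
    UU e N ∈ TF F := by
  rw [mem_TF]
  intro a
  induction a using Nat.strong_induction_on generalizing N with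
  | _ a ih =>
    intro b
    rw [UU_eq, map_add, co_xx_pow_mul]
    refine add_mem (mem_TF.1 (h N) a b) ?_
    split_ifs with h2
    · exact ih _ (by omega) _ _
    · exact zero_mem _

/-- what a step achieves -/
structure StepProps (Z : Set (Vars ι)) (α : ι) (A A' : Subring (TI ι)) : Prop where
  inv : Inv (Z ∪ Set.range fun j => Sum.inr (α, j)) A'
  le : A ≤ A'
  hw : ∀ j, cc (vr (Sum.inr (α, j))) ∈ A'
  cl : Cl A A'
  test : ∀ R : Subring (TI ι), A' ≤ R → Cl A' R → ∀ ψ : R →+ R,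
    (∀ r s, ψ (r ^ 2 * s) = r * ψ s) → (∀ s : R, (s : TI ι) ∈ A → (ψ s : TI ι) ∈ A) →
    ∃ d ∈ A, d ≠ 0 ∧ ∃ t ∈ A, ∀ s : R, (s : TI ι) ∈ A → d * (ψ s).1 = gg (t * s.1)

/-- adjoining the first `j` new variables -/
def WW (A : Subring (TI ι)) (w : ℕ → TI ι) : ℕ → Subring (TI ι)
  | 0 => A
  | j + 1 => nag (WW A w j) (w j)

lemma WW_le {A B : Subring (TI ι)} {w : ℕ → TI ι} (h : A ≤ B)
    (hB : ∀ t q, q ∈ B → IsUnit q → t * q ∈ B → t ∈ B) (j : ℕ) (hw : ∀ l < j, w l ∈ B) :
    WW A w j ≤ B := by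
  induction j with
  | zero => exact h
  | succ j ih => exact nag_le (ih fun l hl => hw l (by omega)) (hw j (by omega)) hB

lemma WW_mono (A : Subring (TI ι)) (w : ℕ → TI ι) : Monotone (WW A w) :=
  monotone_nat_of_le_succ fun _ => le_nag _ _

theorem exists_step {Z : Set (Vars ι)} {A : Subring (TI ι)} (hA : Inv Z A) (α : ι)
    (hZ : ∀ j, Sum.inr (α, j) ∉ Z) : ∃ A', StepProps Z α A A' := by
  classical
  obtain ⟨c, κ, hκ, hck, htest⟩ := exists_tests hA
  have hAN := hA.pure.isNoetherianRing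
  let v : ℕ → Vars ι := fun j => Sum.inr (α, j)
  have hv : Function.Injective v := fun a b h => by simpa [v] using h
  have hvL : ∀ j, v j ∉ Lam ι := by rintro j ⟨n, h⟩; simp [v] at h
  let w : ℕ → TI ι := fun j => cc (vr (v j))
  let e : ℕ → TI ι := fun l => w (2 * l) ^ 2 * (c l).1 + w (2 * l + 1) ^ 2 * (κ l).1
  let ZZ : ℕ → Set (Vars ι) := fun j => Z ∪ v '' Set.Iio j
  have hZZ : ∀ j l, j ≤ l → v l ∉ ZZ j := by
    rintro j l hl (h | ⟨m, hm, h⟩)
    · exact hZ l h
    · rw [hv h] at hm; exact absurd hm (not_lt.2 hl)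
  have hZm : ∀ j l, j ≤ l → ZZ j ⊆ ZZ l := fun j l h =>
    Set.union_subset_union_right _ (Set.image_mono (Set.Iio_subset_Iio h))
  have hWF : ∀ j, WW A w j ≤ TF (kZ (ZZ j)) := fun j =>
    WW_le (hA.sub.trans (TF_mono (kZ_mono Set.subset_union_left))) (TF_inv _) j
      fun l hl => cc_mem_TF (vr_mem (Or.inr ⟨l, hl, rfl⟩))
  have hW : ∀ j, PreGood (WW A w j) ∧ IsNoetherianRing (WW A w j) ∧ Cl A (WW A w j) ∧
      (WW A w j : Set (TI ι)).Countable := by
    intro j
    induction j with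
    | zero => exact ⟨hA.pre, hAN, fun ρ h _ => h, hA.cnt⟩
    | succ j ih =>
      obtain ⟨h1, h2, h3, h4⟩ := ih
      have ht : Transcendental (kZ (ZZ j)) (res (w j)) := by
        rw [res_cc]; exact transcendental_vr (hZZ j j le_rfl)
      have hF : ∀ a ∈ WW A w j, res a ∈ kZ (ZZ j) := fun a ha => res_mem_of_TF (hWF j ha)
      exact ⟨nag_preGood h1 hF ht, nag_noeth _ _, h3.trans (nag_cl h1 hF ht)
        (WW_mono A w (Nat.zero_le j)), nag_countable h4 _⟩
  have hwW : ∀ j l, l < j → w l ∈ WW A w j := fun j l h => WW_mono A w h (mem_nag _ _)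
  have hAW : ∀ j, A ≤ WW A w j := fun j => WW_mono A w (Nat.zero_le j)
  let Bn : ℕ → Subring (TI ι) := fun N => nag (WW A w (2 * N)) (UU e N)
  have hUt : ∀ N, Transcendental (kZ (ZZ (2 * N + 1))) (res (UU e N)) := by
    intro N halg
    apply transcendental_vr (hZZ (2 * N + 1) _ le_rfl)
    have hal : ∀ z ∈ kZ (ZZ (2 * N + 1)), IsAlgebraic (kZ (ZZ (2 * N + 1))) z :=
      fun z hz => isAlgebraic_algebraMap (⟨z, hz⟩ : kZ (ZZ (2 * N + 1)))
    have hc : ∀ a : A, res (a : TI ι) ∈ kZ (ZZ (2 * N + 1)) := fun a =>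
      kZ_mono Set.subset_union_left (res_mem_of_TF (hA.sub a.2))
    have e1 : vr (v (2 * N + 1)) ^ 2 =
        (res (UU e N) - vr (v (2 * N)) ^ 2 * res (c N : TI ι)) * (res (κ N : TI ι))⁻¹ := by
      rw [UU_eq]
      simp only [e, w, map_add, map_mul, map_pow, res_cc, res_xx]
      field_simp [hκ N]
      ring
    refine IsAlgebraic.of_pow (n := 2) (by norm_num) ?_
    rw [e1]
    have hv0 : v (2 * N) ∈ ZZ (2 * N + 1) := Or.inr ⟨_, Nat.lt_succ_self _, rfl⟩
    exact (halg.sub (hal _ (mul_mem (pow_mem (vr_mem hv0) 2)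
      (hc _)))).mul (hal _ (inv_mem (hc _)))
  have hBF : ∀ N, ∀ a ∈ WW A w (2 * N), res a ∈ kZ (ZZ (2 * N + 1)) := fun N a ha =>
    kZ_mono (hZm _ _ (Nat.le_succ _)) (res_mem_of_TF (hWF _ ha))
  have hBpre : ∀ N, PreGood (Bn N) := fun N => nag_preGood (hW _).1 (hBF N) (hUt N)
  have hBpure : ∀ N, Pure (Bn N) := fun N => by
    have := (hW (2 * N)).2.1
    have : IsNoetherianRing (Bn N) := nag_noeth _ _
    exact (hBpre N).pure
  have hBcl : ∀ N, Cl A (Bn N) := fun N =>
    (hW _).2.2.1.trans (nag_cl (hW _).1 (hBF N) (hUt N)) (hAW _)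
  have hBmono : Monotone Bn := by
    refine monotone_nat_of_le_succ fun N => ?_
    have h1 : WW A w (2 * (N + 1)) ≤ Bn (N + 1) := le_nag _ _
    refine nag_le ((WW_mono A w (by omega)).trans h1) ?_ (hBpre _).inv
    rw [UU_eq]
    refine add_mem (h1 (add_mem (mul_mem (pow_mem (hwW _ _ (by omega)) 2) (hAW _ (c N).2))
      (mul_mem (pow_mem (hwW _ _ (by omega)) 2) (hAW _ (κ N).2))))
      (mul_mem (pow_mem (hBpre _).hx 2) (mem_nag _ _))
  have hdir : Directed (· ≤ ·) Bn := hBmono.directed_le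
  set S : Subring (TI ι) := ⨆ N, Bn N with hS
  have hmem : ∀ t, t ∈ S ↔ ∃ N, t ∈ Bn N := fun t => Subring.mem_iSup_of_directed hdir
  have hSpre : PreGood S := preGood_iSup hdir hBpre
  have hAS : A ≤ S := ((hAW _).trans (le_nag _ _)).trans (le_iSup Bn 0)
  have hwS : ∀ j, w j ∈ S := fun j => le_iSup Bn (j + 1) (le_nag _ _ (hwW _ _ (by omega)))
  have hUS : ∀ N, UU e N ∈ S := fun N => le_iSup Bn N (mem_nag _ _)
  have hgU : ∀ t : TI ι, ∀ L, gg (t * UU e L) = w (2 * L) * gg (t * (c L).1) +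
      w (2 * L + 1) * gg (t * (κ L).1) + xx * gg (t * UU e (L + 1)) := by
    intro t L
    rw [UU_eq e L, ← gg_sq_mul, ← gg_sq_mul, ← gg_sq_mul, ← map_add, ← map_add]
    congr 1
    simp only [e]; ring
  have hgU2 : ∀ t : TI ι, (∀ l, gg (t * (c l).1) ∈ S ∧ gg (t * (κ l).1) ∈ S) →
      (∀ᶠ l in atTop, gg (t * (c l).1) = 0 ∧ gg (t * (κ l).1) = 0) → ∀ L, gg (t * UU e L) ∈ S := by
    intro t h1 h2
    obtain ⟨L0, hL0⟩ := eventually_atTop.1 h2
    have h3 : ∀ L, L0 ≤ L → gg (t * UU e L) = 0 := by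
      intro L hL
      refine eq_zero_of_X_pow_dvd fun i => ?_
      induction i generalizing L with
      | zero => simp
      | succ i ih =>
        rw [hgU, (hL0 L hL).1, (hL0 L hL).2, mul_zero, mul_zero, zero_add, zero_add, pow_succ']
        exact mul_dvd_mul_left _ (ih _ (by omega))
    have h4 : ∀ j L, L0 ≤ L + j → gg (t * UU e L) ∈ S := by
      intro j
      induction j with
      | zero => intro L hL; rw [h3 L hL]; exact zero_mem _
      | succ j ih =>
        intro L hL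
        rw [hgU]
        exact add_mem (add_mem (mul_mem (hwS _) (h1 L).1) (mul_mem (hwS _) (h1 L).2))
          (mul_mem hSpre.hx (ih _ (by omega)))
    exact fun L => h4 L0 L (by omega)
  refine ⟨S, ⟨hSpre, pure_iSup hdir hBpure, ?_, ?_, ?_, fun n => hAS (hA.lam n)⟩, hAS, hwS, ?_, ?_⟩
  · rw [hS, Subring.coe_iSup_of_directed hdir]
    exact Set.countable_iUnion fun N => nag_countable (hW _).2.2.2 _
  · intro t ht
    obtain ⟨N, hN⟩ := (hmem t).1 ht
    let z : Option ℕ → TI ι := fun o => o.elim (UU e N) w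
    let S0 := Subring.closure ((A : Set (TI ι)) ∪ Set.range z)
    have hS0 : S0 ≤ S := by
      refine Subring.closure_le.2 (Set.union_subset hAS ?_)
      rintro _ ⟨_ | j, rfl⟩
      · exact hUS N
      · exact hwS j
    have h1 : Bn N ≤ loc S0 :=
      nag_le (WW_le (fun a ha => le_loc _ (Subring.subset_closure (Or.inl ha))) (loc_inv _) _
        fun l _ => le_loc _ (Subring.subset_closure (Or.inr ⟨some l, rfl⟩)))
        (le_loc _ (Subring.subset_closure (Or.inr ⟨none, rfl⟩))) (loc_inv _)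
    have hz : ∀ a ∈ A, ∀ F : Finset (Option ℕ), none ∉ F → F.Nonempty →
        gg (a * ∏ i ∈ F, z i) = 0 := by
      rintro a ha F hF ⟨_ | j, hj⟩
      · exact absurd hj hF
      · rw [← Finset.prod_erase_mul F z hj, ← mul_assoc]
        refine gg_mul_vr (hvL j) (mul_mem (TF_mono (kZ_mono
          (Set.subset_compl_singleton_iff.2 (hZ j))) (hA.sub ha)) (prod_mem ?_))
        rintro (_ | l) hl
        · exact absurd (Finset.mem_of_mem_erase hl) hF
        · refine cc_mem_TF (vr_mem fun h => ?_)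
          exact Finset.ne_of_mem_erase hl (congrArg some (hv h))
    have hz2 : ∀ a ∈ A, ∀ F : Finset (Option ℕ), none ∉ F → gg (a * ∏ i ∈ F, z i) ∈ S := by
      intro a ha F hF
      rcases F.eq_empty_or_nonempty with rfl | h
      · simpa using hAS (hA.stab a ha)
      · rw [hz a ha F hF h]; exact zero_mem _
    have h2 : ∀ u ∈ S0, gg u ∈ S := by
      intro u hu
      have h3 := mem_sqfree_closure A z hu
      clear hu
      induction h3 using AddSubgroup.closure_induction with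
      | zero => simp
      | add a b _ _ ha hb => rw [map_add]; exact add_mem ha hb
      | neg a _ ha => rw [map_neg]; exact neg_mem ha
      | mem u hu =>
        obtain ⟨ρ, hρ, a, ha, F, rfl⟩ := hu
        rw [gg_sq_mul]
        refine mul_mem (hS0 hρ) ?_
        by_cases hF : none ∈ F
        · rw [← Finset.prod_erase_mul F z hF, ← mul_assoc]
          have hF' : none ∉ F.erase none := Finset.notMem_erase _ _
          refine hgU2 _ (fun l => ⟨?_, ?_⟩) ?_ N
          · rw [mul_right_comm]; exact hz2 _ (mul_mem ha (c l).2) _ hF'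
          · rw [mul_right_comm]; exact hz2 _ (mul_mem ha (κ l).2) _ hF'
          · rcases (F.erase none).eq_empty_or_nonempty with h | h
            · simpa [h] using hck a ha
            · refine Eventually.of_forall fun l => ⟨?_, ?_⟩
              · rw [mul_right_comm]; exact hz _ (mul_mem ha (c l).2) _ hF' h
              · rw [mul_right_comm]; exact hz _ (mul_mem ha (κ l).2) _ hF' h
        · exact hz2 a ha F hF
    obtain ⟨q, hq, hu, htq⟩ := h1 hN
    refine hSpre.inv _ q (hS0 hq) hu ?_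
    rw [mul_comm, ← gg_sq_mul, show q ^ 2 * t = t * q * q by ring]
    exact h2 _ (mul_mem htq hq)
  · have hA' : A ≤ TF (kZ (Z ∪ Set.range v)) :=
      hA.sub.trans (TF_mono (kZ_mono Set.subset_union_left))
    have hw' : ∀ j, w j ∈ TF (kZ (Z ∪ Set.range v)) := fun j =>
      cc_mem_TF (vr_mem (Or.inr ⟨j, rfl⟩))
    refine iSup_le fun N => nag_le (WW_le hA' (TF_inv _) _ fun l _ => hw' l) ?_ (TF_inv _)
    exact UU_mem_TF (fun l => add_mem (mul_mem (pow_mem (hw' _) 2) (hA' (c l).2))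
      (mul_mem (pow_mem (hw' _) 2) (hA' (κ l).2))) N
  · intro ρ hρ H
    obtain ⟨N, hN⟩ := (hmem ρ).1 hρ
    exact hBcl N ρ hN H
  · intro R hSR hcl ψ hψ hψA
    have hAR : A ≤ R := hAS.trans hSR
    let ψA : A →+ A :=
      { toFun := fun s => ⟨(ψ ⟨s.1, hAR s.2⟩).1, hψA _ s.2⟩
        map_zero' := Subtype.ext (congrArg (fun z : R => z.1) ψ.map_zero)
        map_add' := fun a b => Subtype.ext
          (congrArg (fun z : R => z.1) (ψ.map_add ⟨a, hAR a.2⟩ ⟨b, hAR b.2⟩)) }
    let ρ : ℕ → TI ι := fun N => (ψ ⟨UU e N, hSR (hUS N)⟩).1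
    let f : ℕ → TI ι := fun l => w (2 * l) * (ψA (c l)).1 + w (2 * l + 1) * (ψA (κ l)).1
    have hρ : ∀ N, ρ N = f N + xx * ρ (N + 1) := by
      intro N
      have e1 : (⟨UU e N, hSR (hUS N)⟩ : R) =
          (⟨w (2 * N), hSR (hwS _)⟩ : R) ^ 2 * ⟨c N, hAR (c N).2⟩ +
          (⟨w (2 * N + 1), hSR (hwS _)⟩ : R) ^ 2 * ⟨κ N, hAR (κ N).2⟩ +
          (⟨xx, hAR hA.pre.hx⟩ : R) ^ 2 * ⟨UU e (N + 1), hSR (hUS _)⟩ :=
        Subtype.ext (UU_eq e N)
      simp only [ρ]
      rw [e1, map_add, map_add, hψ, hψ, hψ]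
      rfl
    have hρ2 : ∀ L, ρ 0 = ∑ l ∈ Finset.range L, xx ^ l * f l + xx ^ L * ρ L := by
      intro L
      induction L with
      | zero => simp
      | succ L ih => rw [ih, hρ L, Finset.sum_range_succ]; ring
    have hρS : ρ 0 ∈ S := hcl _ (ψ _).2 fun i =>
      ⟨∑ l ∈ Finset.range i, xx ^ l * f l, sum_mem fun l _ => mul_mem (pow_mem hSpre.hx _)
        (add_mem (mul_mem (hwS _) (hAS (ψA _).2)) (mul_mem (hwS _) (hAS (ψA _).2))),
        ρ i, by rw [hρ2 i]; ring⟩
    obtain ⟨N, hN⟩ := (hmem _).1 hρS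
    obtain ⟨d, hd, t, ht⟩ := htest ψA (fun r s => Subtype.ext
      (congrArg (fun z : R => z.1) (hψ ⟨r, hAR r.2⟩ ⟨s, hAR s.2⟩))) (eventually_atTop.2 ⟨N, by
        intro n hn
        have hA' : A ≤ TF (kS (v (2 * n))) := hA.sub.trans (TF_mono (kZ_le_kS (hZ _)))
        have hw' : ∀ j, j ≠ 2 * n → w j ∈ TF (kS (v (2 * n))) := fun j hj =>
          cc_mem_TF (kZ_le_kS (Z := {v j}) (fun h => hj (hv h).symm) (vr_mem rfl))
        have hw2 : ∀ j, w j ^ 2 ∈ TF (kS (v (2 * n))) := fun j => by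
          rw [← map_pow]; exact cc_mem_TF (sq_mem_kS _ _)
        have hB : Bn N ≤ TF (kS (v (2 * n))) :=
          nag_le (WW_le hA' (TF_inv _) _ fun l hl => hw' l (by omega))
            (UU_mem_TF (fun l => add_mem (mul_mem (hw2 _) (hA' (c l).2))
              (mul_mem (hw2 _) (hA' (κ l).2))) N) (TF_inv _)
        refine Subtype.ext (co_ext fun p q => ?_)
        have h1 : ρ 0 - ∑ l ∈ (Finset.range (p + n + 1)).erase n, xx ^ l * f l -
            xx ^ n * (w (2 * n + 1) * (ψA (κ n)).1) ∈ TF (kS (v (2 * n))) := by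
          refine sub_mem (sub_mem (hB hN) (sum_mem fun l hl => mul_mem (pow_mem (xx_mem_TF _) _)
            (add_mem (mul_mem (hw' _ ?_) (hA' (ψA _).2))
              (mul_mem (hw' _ (by omega)) (hA' (ψA _).2)))))
            (mul_mem (pow_mem (xx_mem_TF _) _) (mul_mem (hw' _ (by omega)) (hA' (ψA _).2)))
          have := Finset.ne_of_mem_erase hl
          omega
        have h2 : ρ 0 - ∑ l ∈ (Finset.range (p + n + 1)).erase n, xx ^ l * f l -
            xx ^ n * (w (2 * n + 1) * (ψA (κ n)).1) =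
            xx ^ n * ((ψA (c n)).1 * w (2 * n)) + xx ^ (p + n + 1) * ρ (p + n + 1) := by
          rw [hρ2 (p + n + 1), ← Finset.add_sum_erase _ _ (a := n) (by simp)]
          simp only [f]; ring
        have h3 := mem_TF.1 h1 (p + n) q
        rw [h2, map_add, co_xx_pow_mul, co_xx_pow_mul, if_pos (by omega), if_neg (by omega),
          add_zero, Nat.add_sub_cancel, co_mul_cc] at h3
        by_contra hne
        have h4 := mem_TF.1 (hA' (ψA (c n)).2) p q
        have hne' : co p q (ψA (c n) : TI ι) ≠ 0 := by simpa using hne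
        apply vr_notMem_kS (v (2 * n))
        have := mul_mem (inv_mem h4) h3
        rwa [← mul_assoc, inv_mul_cancel₀ hne', one_mul] at this⟩)
    exact ⟨d, d.2, fun h => hd (Subtype.ext h), t, t.2, fun s hs => ht ⟨s, hs⟩⟩

end

end Pool.Agent.H896Z.FS
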